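import Pool.Agent.X234.PF.Gen

/-!
# Al-Salam-Carlitz polynomials and two skew forms
-/

set_option autoImplicit false

namespace Pool.Agent.X234.PF

open Finset Equiv Polynomial

variable {K : Type*} [CommRing K]

/-- moments, by recursion -/
def gg (a q : K) : ℕ → K
  | 0 => 1
  | 1 => 1 + a
  | (r + 2) => (1 + a) * gg a q (r + 1) - a * (1 - q ^ (r + 1)) * gg a q r

/-- the moment functional -/
noncomputable def L (a q : K) : K[X] →ₗ[K] K :=
  Polynomial.lsum (fun r => (gg a q r) • (LinearMap.id : K →ₗ[K] K))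

theorem L_monomial (a q : K) (r : ℕ) (c : K) : L a q (monomial r c) = gg a q r * c := by
  simp [L, Polynomial.lsum_apply, Polynomial.sum_monomial_index]

/-- the `q`-derivative `(f - f(qX)) / X` -/
noncomputable def D (q : K) : K[X] →ₗ[K] K[X] :=
  Polynomial.lsum (fun r => (1 - q ^ r) • (monomial (r - 1) : K →ₗ[K] K[X]))

theorem D_monomial (q : K) (r : ℕ) (c : K) :
    D q (monomial r c) = monomial (r - 1) ((1 - q ^ r) * c) := by
  simp [D, Polynomial.lsum_apply, Polynomial.sum_monomial_index, smul_monomial]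

theorem D_X_pow (q : K) (r : ℕ) : D q (X ^ r) = C (1 - q ^ r) * X ^ (r - 1) := by
  rw [← monomial_one_right_eq_X_pow, D_monomial, C_mul_X_pow_eq_monomial, mul_one]

theorem pearson (a q : K) (f : K[X]) :
    L a q (X * f) = (1 + a) * L a q f - a * L a q (D q f) := by
  induction f using Polynomial.induction_on' with
  | add f g hf hg =>
    rw [mul_add, map_add, hf, hg, map_add, map_add, map_add]
    ring
  | monomial r c =>
    rw [X_mul_monomial, D_monomial, L_monomial, L_monomial, L_monomial]
    rcases r with _ | r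
    · simp [gg]
    · rw [show r + 1 + 1 = r + 2 from rfl, gg, Nat.add_sub_cancel]
      ring

theorem D_X_mul (q : K) (f : K[X]) : D q (X * f) = C (1 - q) * f + C q * (X * D q f) := by
  induction f using Polynomial.induction_on' with
  | add f g hf hg =>
    rw [mul_add, map_add, hf, hg, map_add]
    ring
  | monomial r c =>
    rw [X_mul_monomial, D_monomial, D_monomial, X_mul_monomial, C_mul_monomial, C_mul_monomial]
    rcases r with _ | r
    · simp
    · rw [Nat.add_sub_cancel, Nat.add_sub_cancel, ← map_add]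
      congr 1
      ring

/-- Al-Salam-Carlitz polynomials -/
noncomputable def U (a q : K) : ℕ → K[X]
  | 0 => 1
  | 1 => X - C (1 + a)
  | (r + 2) => (X - C ((1 + a) * q ^ (r + 1))) * U a q (r + 1) +
      C (a * q ^ r * (1 - q ^ (r + 1))) * U a q r

theorem XU (a q : K) (r : ℕ) : X * U a q r = U a q (r + 1) + C ((1 + a) * q ^ r) * U a q r -
    C (a * q ^ (r - 1) * (1 - q ^ r)) * U a q (r - 1) := by
  rcases r with _ | r
  · simp [U]
  · rw [show r + 1 + 1 = r + 2 from rfl, Nat.add_sub_cancel, U]
    ring

theorem D_one (q : K) : D q 1 = 0 := by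
  have := D_monomial q 0 1
  simpa using this

theorem D_C (q c : K) : D q (C c) = 0 := by
  have := D_monomial q 0 c
  simpa using this

theorem D_C_mul (q c : K) (f : K[X]) : D q (C c * f) = C c * D q f := by
  rw [← smul_eq_C_mul, map_smul, smul_eq_C_mul]

theorem L_C_mul (a q c : K) (f : K[X]) : L a q (C c * f) = c * L a q f := by
  rw [← smul_eq_C_mul, map_smul, smul_eq_mul]

theorem DU (a q : K) (r : ℕ) : D q (U a q r) = C (1 - q ^ r) * U a q (r - 1) := by
  induction r using Nat.strong_induction_on with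
  | _ r ih =>
    rcases r with _ | _ | r
    · simp [U, D_one]
    · have h := D_X_mul q (1 : K[X])
      rw [mul_one, D_one, mul_zero, mul_zero, add_zero, mul_one] at h
      simp only [U, map_sub, D_C, h]
      simp [U]
    · have h1 := ih (r + 1) (by omega)
      have h0 := ih r (by omega)
      have hX := XU a q r
      rw [Nat.add_sub_cancel] at h1
      rw [show r + 1 + 1 = r + 2 from rfl, U, map_add, sub_mul, map_sub, D_X_mul, D_C_mul,
        D_C_mul, h1, h0, show r + 2 - 1 = r + 1 from rfl]
      have e1 : C q * (X * (C (1 - q ^ (r + 1)) * U a q r)) =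
          C (q * (1 - q ^ (r + 1))) * (X * U a q r) := by
        rw [C_mul]; ring
      rw [e1, hX]
      rcases r with _ | r
      · simp only [C_mul, C_sub, C_add, C_pow, C_1, C_0, pow_zero, Nat.zero_sub, mul_one, sub_self,
          mul_zero, zero_add, pow_one]
        ring
      · simp only [C_mul, C_sub, C_add, C_pow, C_1, Nat.add_sub_cancel]
        ring

theorem LU (a q : K) (r : ℕ) : L a q (U a q (r + 1)) = 0 := by
  induction r using Nat.strong_induction_on with
  | _ r ih =>
    have h1 : L a q (1 : K[X]) = 1 := by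
      have := L_monomial a q 0 1
      simpa [gg] using this
    have hX : L a q (X : K[X]) = 1 + a := by
      have := L_monomial a q 1 1
      rw [monomial_one_right_eq_X_pow, pow_one] at this
      rw [this]; simp [gg]
    have hC : ∀ c : K, L a q (C c) = c := by
      intro c
      have := L_C_mul a q c 1
      rwa [mul_one, h1, mul_one] at this
    rcases r with _ | r
    · simp only [U, map_sub, hX, hC, sub_self]
    · rw [show r + 1 + 1 = r + 2 from rfl, U, map_add, sub_mul, map_sub, pearson, DU, L_C_mul,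
        L_C_mul, L_C_mul, Nat.add_sub_cancel, ih r (by omega)]
      rcases r with _ | r
      · simp [U, h1]
      · rw [ih r (by omega)]
        ring

/-- squared norms -/
def hh (a q : K) : ℕ → K
  | 0 => 1
  | (r + 1) => -(a * q ^ r * (1 - q ^ (r + 1))) * hh a q r

theorem orth_aux (a q : K) (s : ℕ) : (∀ r, s < r → L a q (U a q r * U a q s) = 0) ∧
    L a q (U a q s * U a q s) = hh a q s := by
  induction s using Nat.strong_induction_on with
  | _ s ih =>
    have h1 : L a q (1 : K[X]) = 1 := by
      have := L_monomial a q 0 1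
      simpa [gg] using this
    rcases s with _ | s
    · refine ⟨fun r hr => ?_, ?_⟩
      · obtain ⟨r', rfl⟩ : ∃ r', r = r' + 1 := ⟨r - 1, by omega⟩
        simp [U, LU]
      · simp [U, h1, hh]
    · have hs := ih s (by omega)
      have hrec : ∀ r, L a q (U a q r * U a q (s + 1)) = L a q (U a q (r + 1) * U a q s) +
          (1 + a) * q ^ r * L a q (U a q r * U a q s) -
          a * q ^ (r - 1) * (1 - q ^ r) * L a q (U a q (r - 1) * U a q s) -
          (1 + a) * q ^ s * L a q (U a q r * U a q s) +
          a * q ^ (s - 1) * (1 - q ^ s) * L a q (U a q r * U a q (s - 1)) := by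
        intro r
        have e1 : U a q r * U a q (s + 1) = (X * U a q r) * U a q s -
            C ((1 + a) * q ^ s) * (U a q r * U a q s) +
            C (a * q ^ (s - 1) * (1 - q ^ s)) * (U a q r * U a q (s - 1)) := by
          have := XU a q s
          linear_combination (-(U a q r)) * this
        have e2 : (X * U a q r) * U a q s = U a q (r + 1) * U a q s +
            C ((1 + a) * q ^ r) * (U a q r * U a q s) -
            C (a * q ^ (r - 1) * (1 - q ^ r)) * (U a q (r - 1) * U a q s) := by
          rw [XU]; ring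
        rw [e1, e2]
        simp only [map_add, map_sub, L_C_mul]
      have hs1 : ∀ r, s < r → (1 - q ^ s) * L a q (U a q r * U a q (s - 1)) = 0 := by
        intro r hr
        rcases s with _ | s
        · simp
        · rw [Nat.add_sub_cancel, (ih s (by omega)).1 r (by omega), mul_zero]
      refine ⟨fun r hr => ?_, ?_⟩
      · rw [hrec, hs.1 (r + 1) (by omega), hs.1 r (by omega), hs.1 (r - 1) (by omega)]
        have := hs1 r (by omega)
        linear_combination a * q ^ (s - 1) * this
      · rw [hrec, hs.1 (s + 1 + 1) (by omega), hs.1 (s + 1) (by omega), Nat.add_sub_cancel, hs.2, hh]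
        have := hs1 (s + 1) (by omega)
        linear_combination a * q ^ (s - 1) * this

theorem orth (a q : K) (r s : ℕ) (h : r ≠ s) : L a q (U a q r * U a q s) = 0 := by
  rcases lt_or_gt_of_ne h with h | h
  · rw [mul_comm]; exact (orth_aux a q r).1 s h
  · exact (orth_aux a q s).1 r h

theorem orth_self (a q : K) (r : ℕ) : L a q (U a q r * U a q r) = hh a q r := (orth_aux a q r).2

/-- the first skew form -/
noncomputable def B1 (a q : K) : K[X] →ₗ[K] K[X] →ₗ[K] K :=
  LinearMap.mk₂ K (fun f g => L a q (f * D q g - g * D q f))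
    (fun f f' g => by rw [← map_add]; congr 1; rw [map_add]; ring)
    (fun c f g => by
      rw [smul_eq_mul, ← L_C_mul, smul_eq_C_mul, D_C_mul]; congr 1; ring)
    (fun f g g' => by rw [← map_add]; congr 1; rw [map_add]; ring)
    (fun c f g => by
      rw [smul_eq_mul, ← L_C_mul, smul_eq_C_mul, D_C_mul]; congr 1; ring)

/-- the second skew form -/
noncomputable def B2 (a q : K) : K[X] →ₗ[K] K[X] →ₗ[K] K :=
  LinearMap.mk₂ K (fun f g => L a q (X * (f * D q g - g * D q f)))
    (fun f f' g => by rw [← map_add]; congr 1; rw [map_add]; ring)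
    (fun c f g => by
      rw [smul_eq_mul, ← L_C_mul, smul_eq_C_mul, D_C_mul]; congr 1; ring)
    (fun f g g' => by rw [← map_add]; congr 1; rw [map_add]; ring)
    (fun c f g => by
      rw [smul_eq_mul, ← L_C_mul, smul_eq_C_mul, D_C_mul]; congr 1; ring)

theorem B1_apply (a q : K) (f g : K[X]) : B1 a q f g = L a q (f * D q g - g * D q f) := rfl

theorem B2_apply (a q : K) (f g : K[X]) : B2 a q f g = L a q (X * (f * D q g - g * D q f)) := rfl

theorem B1_U (a q : K) (r s : ℕ) : B1 a q (U a q r) (U a q s) =
    (1 - q ^ s) * L a q (U a q r * U a q (s - 1)) -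
      (1 - q ^ r) * L a q (U a q s * U a q (r - 1)) := by
  rw [B1_apply, DU, DU, ← L_C_mul, ← L_C_mul, ← map_sub]
  congr 1
  ring

theorem B2_U (a q : K) (r s : ℕ) : B2 a q (U a q r) (U a q s) =
    (1 - q ^ s) * L a q (X * U a q r * U a q (s - 1)) -
      (1 - q ^ r) * L a q (X * U a q s * U a q (r - 1)) := by
  rw [B2_apply, DU, DU, ← L_C_mul, ← L_C_mul, ← map_sub]
  congr 1
  ring

theorem B1_X (a q : K) (i j : ℕ) : B1 a q (X ^ i) (X ^ j) =
    (q ^ i - q ^ j) * gg a q (i + j - 1) := by
  have hm : ∀ (c : K) (n : ℕ), L a q (C c * X ^ n) = c * gg a q n := by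
    intro c n
    rw [C_mul_X_pow_eq_monomial, L_monomial, mul_comm]
  rw [B1_apply, D_X_pow, D_X_pow]
  rcases i with _ | i <;> rcases j with _ | j
  · simp
  · rw [show X ^ 0 * (C (1 - q ^ (j + 1)) * X ^ (j + 1 - 1)) -
      X ^ (j + 1) * (C (1 - q ^ 0) * X ^ (0 - 1)) = C (1 - q ^ (j + 1)) * (X : K[X]) ^ j by
        simp, hm]
    simp
  · rw [show X ^ (i + 1) * (C (1 - q ^ 0) * X ^ (0 - 1)) -
      X ^ 0 * (C (1 - q ^ (i + 1)) * X ^ (i + 1 - 1)) = C (-(1 - q ^ (i + 1))) * (X : K[X]) ^ i by
        simp only [C_sub, C_1, C_pow, C_neg, C_0, pow_zero, sub_self, Nat.add_sub_cancel]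
        ring, hm]
    simp
  · rw [show X ^ (i + 1) * (C (1 - q ^ (j + 1)) * X ^ (j + 1 - 1)) -
      X ^ (j + 1) * (C (1 - q ^ (i + 1)) * X ^ (i + 1 - 1)) =
      C (q ^ (i + 1) - q ^ (j + 1)) * (X : K[X]) ^ (i + 1 + (j + 1) - 1) by
        rw [Nat.add_sub_cancel, Nat.add_sub_cancel,
          show i + 1 + (j + 1) - 1 = i + j + 1 by omega]
        simp only [C_sub, C_1, C_pow]
        ring, hm]

theorem B2_X (a q : K) (i j : ℕ) : B2 a q (X ^ i) (X ^ j) =
    (q ^ i - q ^ j) * gg a q (i + j) := by
  have hm : ∀ (c : K) (n : ℕ), L a q (C c * X ^ n) = c * gg a q n := by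
    intro c n
    rw [C_mul_X_pow_eq_monomial, L_monomial, mul_comm]
  rw [B2_apply, D_X_pow, D_X_pow, ← hm]
  congr 1
  rcases i with _ | i <;> rcases j with _ | j
  · simp
  · simp only [C_sub, C_1, C_pow, C_0, Nat.add_sub_cancel, pow_zero, sub_self]
    ring
  · simp only [C_sub, C_1, C_pow, C_0, Nat.add_sub_cancel, pow_zero, sub_self]
    ring
  · simp only [C_sub, C_1, C_pow, Nat.add_sub_cancel]
    ring

end Pool.Agent.X234.PF
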