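import Pool.Agent.X234.PF.Cheb

/-!
# Pfaffians for the semicircle and arcsine laws
-/

set_option autoImplicit false

namespace Pool.Agent.X234.PF.Ch

open Finset Equiv Polynomial

variable {R : Type*} [CommRing R] [Algebra ℚ R]

/-- the skew form `L (f g' - f' g)` -/
noncomputable def B (l : ℕ) (a : R) : R[X] →ₗ[R] R[X] →ₗ[R] R :=
  LinearMap.mk₂ R (fun f g => Lm l a (f * derivative g - g * derivative f))
    (fun f f' g => by rw [← map_add]; congr 1; rw [derivative_add]; ring)
    (fun c f g => by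
      rw [smul_eq_mul, ← Lm_C_mul, smul_eq_C_mul, derivative_C_mul]; congr 1; ring)
    (fun f g g' => by rw [← map_add]; congr 1; rw [derivative_add]; ring)
    (fun c f g => by
      rw [smul_eq_mul, ← Lm_C_mul, smul_eq_C_mul, derivative_C_mul]; congr 1; ring)

theorem B_apply (l : ℕ) (a : R) (f g : R[X]) :
    B l a f g = Lm l a (f * derivative g - g * derivative f) := rfl

theorem two_cancel {x : R} (h : x = -x) : x = 0 := by
  have h2 : (2 : R) * x = 0 := by linear_combination h
  have h3 : algebraMap ℚ R (1 / 2) * 2 = 1 := by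
    have : (2 : R) = algebraMap ℚ R 2 := by rw [map_ofNat]
    rw [this, ← map_mul]; norm_num
  calc x = (algebraMap ℚ R (1 / 2) * 2) * x := by rw [h3, one_mul]
    _ = 0 := by rw [mul_assoc, h2, mul_zero]

theorem L_neg (l : ℕ) (a : R) (f : R[X]) : Lm l a (f.comp (-X)) = Lm l a f := by
  induction f using Polynomial.induction_on' with
  | add f g hf hg => rw [add_comp, map_add, map_add, hf, hg]
  | monomial r c =>
    rw [monomial_comp, neg_pow, ← mul_assoc,
      show C c * (-1) ^ r * X ^ r = C (c * (-1) ^ r) * X ^ r by simp [C_mul, C_pow],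
      C_mul_X_pow_eq_monomial, Lm_monomial, Lm_monomial]
    rcases Nat.even_or_odd' r with ⟨k, rfl | rfl⟩
    · rw [pow_mul]; simp
    · rw [mu_odd]; simp

theorem B_par (l : ℕ) (a ε : R) (hε : ε * ε = 1) (f g : R[X]) (hf : f.comp (-X) = C ε * f)
    (hg : g.comp (-X) = C ε * g) : B l a f g = 0 := by
  have hd : ∀ p : R[X], p.comp (-X) = C ε * p → (derivative p).comp (-X) = -(C ε * derivative p) := by
    intro p hp
    have := derivative_comp p (-X)
    rw [hp, derivative_C_mul, derivative_neg, derivative_X] at this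
    linear_combination this
  have hC : C ε * C ε = (1 : R[X]) := by rw [← C_mul, hε, C_1]
  apply two_cancel
  conv_lhs => rw [B_apply, ← L_neg, sub_comp, mul_comp, mul_comp, hf, hg, hd f hf, hd g hg]
  rw [B_apply, ← map_neg]
  congr 1
  linear_combination (-(f * derivative g) + g * derivative f) * hC

theorem B_skew (l : ℕ) (a : R) (f g : R[X]) : B l a f g = - B l a g f := by
  rw [B_apply, B_apply, ← map_neg]
  congr 1
  ring

theorem U_par (a : R) (r : ℕ) : (U a r).comp (-X) = C ((-1) ^ r) * U a r := by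
  induction r using Nat.strong_induction_on with
  | _ r ih =>
    rcases r with _ | _ | r
    · simp [U]
    · simp [U]
    · rw [show r + 1 + 1 = r + 2 from rfl, U, sub_comp, mul_comp, mul_comp, ih (r + 1) (by omega),
        ih r (by omega), X_comp, C_comp]
      simp only [C_neg, C_1, C_pow]
      ring

theorem P_par (a : R) (r : ℕ) : (P a r).comp (-X) = C ((-1) ^ r) * P a r := by
  induction r using Nat.strong_induction_on with
  | _ r ih =>
    rcases r with _ | _ | r
    · simp [P]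
    · simp [P]
    · rw [show r + 1 + 1 = r + 2 from rfl, P, sub_comp, mul_comp, mul_comp, ih (r + 1) (by omega),
        ih r (by omega), X_comp, C_comp]
      simp only [C_neg, C_1, C_pow]
      ring

theorem Mon_U (a : R) (r : ℕ) : Mon r (U a r) := by
  induction r using Nat.strong_induction_on with
  | _ r ih =>
    rcases r with _ | _ | r
    · refine ⟨fun j hj => ?_, ?_⟩
      · rw [U, coeff_one, if_neg (by omega)]
      · rw [U, coeff_one, if_pos rfl]
    · have h0 := (ih 0 (by omega)).X_mul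
      rwa [show U a 0 = 1 from rfl, mul_one] at h0
    · have h := ((ih (r + 1) (by omega)).X_mul.add_low (-a) (ih r (by omega)) (by omega))
      have e : U a (r + 1 + 1) = X * U a (r + 1) + C (-a) * U a r := by
        rw [show r + 1 + 1 = r + 2 from rfl, U, C_neg]; ring
      rw [e]; exact h

theorem Mon_P (a : R) (r : ℕ) : Mon (r + 1) (P a (r + 1)) := by
  rcases r with _ | r
  · exact Mon_U a 1
  · have h := (Mon_U a (r + 2)).add_low (-a) (Mon_U a r) (by omega)
    rw [show r + 1 + 1 = r + 2 from rfl, P_eq, sub_eq_add_neg, ← neg_mul, ← C_neg]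
    exact h

/-- the Gram matrix in powers of `X + c` has the same Pfaffian as in any monic family -/
theorem pf_shift (n l : ℕ) (a c : R) (f : ℕ → R[X]) (hf : ∀ r, Mon r (f r))
    (h0 : ∀ u v, B l a (f (2 * u)) (f (2 * v)) = 0)
    (h1 : ∀ u v, B l a (f (2 * u + 1)) (f (2 * v + 1)) = 0) :
    pf n (Matrix.of fun i j : Fin (2 * n) =>
      (((j : ℕ) : R) - (i : ℕ)) * Lm l a ((X + C c) ^ ((i : ℕ) + (j : ℕ) - 1))) =
      (Matrix.of fun u v : Fin n => B l a (f (2 * (u : ℕ))) (f (2 * (v : ℕ) + 1))).det := by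
  rw [← pf_form n (B l a) f hf h0 h1 (fun u v => B_skew l a _ _), pf_eq, pf_eq,
    ps_change n (B l a) (fun r => (X + C c) ^ r)]
  · congr 3
    ext i j
    simp only [Matrix.of_apply]
    have hd : ∀ r : ℕ, derivative ((X + C c) ^ r : R[X]) = C (r : R) * (X + C c) ^ (r - 1) := by
      intro r
      rw [derivative_pow, derivative_add, derivative_X, derivative_C, add_zero, mul_one]
    rw [B_apply, ← Lm_C_mul, hd, hd]
    congr 1
    rcases Nat.eq_zero_or_pos (i : ℕ) with hi | hi <;> rcases Nat.eq_zero_or_pos (j : ℕ) with hj | hj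
    · simp [hi, hj]
    · simp [hi]
    · simp [hj]
    · obtain ⟨i', hi'⟩ : ∃ i', (i : ℕ) = i' + 1 := ⟨i - 1, by omega⟩
      obtain ⟨j', hj'⟩ : ∃ j', (j : ℕ) = j' + 1 := ⟨j - 1, by omega⟩
      rw [hi', hj', Nat.add_sub_cancel, Nat.add_sub_cancel,
        show i' + 1 + (j' + 1) - 1 = i' + j' + 1 by omega, C_sub]
      ring
  · intro r
    refine ⟨fun j hj => ?_, ?_⟩
    · rw [coeff_X_add_C_pow, Nat.choose_eq_zero_of_lt hj, Nat.cast_zero, mul_zero]
    · rw [coeff_X_add_C_pow, Nat.choose_self, Nat.sub_self, pow_zero, Nat.cast_one, mul_one]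

/-- the family alternating two sequences -/
noncomputable def alt (e o : ℕ → R[X]) (r : ℕ) : R[X] := if r % 2 = 0 then e (r / 2) else o (r / 2)

theorem alt_even (e o : ℕ → R[X]) (k : ℕ) : alt e o (2 * k) = e k := by
  rw [alt, if_pos (by omega), show 2 * k / 2 = k by omega]

theorem alt_odd (e o : ℕ → R[X]) (k : ℕ) : alt e o (2 * k + 1) = o k := by
  rw [alt, if_neg (by omega), show (2 * k + 1) / 2 = k by omega]

theorem alt_mon (e o : ℕ → R[X]) (he : ∀ k, Mon (2 * k) (e k)) (ho : ∀ k, Mon (2 * k + 1) (o k))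
    (r : ℕ) : Mon r (alt e o r) := by
  rcases Nat.even_or_odd' r with ⟨k, rfl | rfl⟩
  · rw [alt_even]; exact he k
  · rw [alt_odd]; exact ho k

theorem semi_aux (a : R) (u : ℕ) :
    (∀ v, u < v → Lm 4 a (P a (2 * v + 1) * derivative (U a (2 * u))) = 0) ∧
    Lm 4 a (P a (2 * u + 1) * derivative (U a (2 * u))) = -(2 * u * a ^ (2 * u)) := by
  induction u with
  | zero => simp [U]
  | succ u ih =>
    have hrec : ∀ v, Lm 4 a (P a (2 * (v + 1) + 1) * derivative (U a (2 * (u + 1)))) =
        (2 * u + 2) * (Lm 4 a (U a (2 * v + 3) * U a (2 * u + 1)) -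
          a * Lm 4 a (U a (2 * v + 1) * U a (2 * u + 1))) +
        a * Lm 4 a (P a (2 * (v + 1) + 1) * derivative (U a (2 * u))) := by
      intro v
      rw [show 2 * (u + 1) = 2 * u + 2 by ring, derU]
      rw [← Lm_C_mul, ← Lm_C_mul, ← map_sub,
        show (2 * (u : R) + 2) = (((2 * u : ℕ) : R) + 2) by push_cast; ring, ← Lm_C_mul, ← map_add]
      congr 1
      rw [show 2 * (v + 1) + 1 = 2 * v + 1 + 2 by ring, P_eq]
      rw [show 2 * v + 1 + 2 = 2 * v + 3 by ring]
      ring
    refine ⟨fun v hv => ?_, ?_⟩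
    · obtain ⟨w, rfl⟩ : ∃ w, v = w + 1 := ⟨v - 1, by omega⟩
      rw [hrec, orth a _ _ (by omega), orth a _ _ (by omega), ih.1 _ (by omega)]
      ring
    · rw [hrec, orth a (2 * u + 3) _ (by omega), (orth_aux a (2 * u + 1)).2, ih.1 _ (by omega)]
      push_cast
      ring

/-- **Semicircle Pfaffian.** -/
theorem pf_semi (n : ℕ) (a c : R) :
    pf n (Matrix.of fun i j : Fin (2 * n) =>
      (((j : ℕ) : R) - (i : ℕ)) * Lm 4 a ((X + C c) ^ ((i : ℕ) + (j : ℕ) - 1))) =
      ∏ k ∈ range n, ((4 * k + 1) * a ^ (2 * k)) := by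
  rw [pf_shift n 4 a c (alt (fun u => U a (2 * u)) (fun v => P a (2 * v + 1)))
    (alt_mon _ _ (fun k => Mon_U a _) (fun k => Mon_P a _))
    (fun u v => by
      rw [alt_even, alt_even]
      refine B_par 4 a 1 (by ring) _ _ ?_ ?_
      · rw [U_par, pow_mul]; simp
      · rw [U_par, pow_mul]; simp)
    (fun u v => by
      rw [alt_odd, alt_odd]
      refine B_par 4 a (-1) (by ring) _ _ ?_ ?_
      · rw [P_par, pow_succ, pow_mul]; simp
      · rw [P_par, pow_succ, pow_mul]; simp)]
  have hB : ∀ u v, B 4 a (U a (2 * u)) (P a (2 * v + 1)) =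
      (2 * v + 1) * Lm 4 a (U a (2 * u) * U a (2 * v)) -
        Lm 4 a (P a (2 * v + 1) * derivative (U a (2 * u))) := by
    intro u v
    rw [B_apply, map_sub, derP, ← Lm_C_mul]
    congr 2
    push_cast
    simp only [C_add, C_mul, C_ofNat, C_1]
    ring
  rw [Matrix.det_of_isLowerTriangular]
  · rw [Finset.prod_range]
    refine Finset.prod_congr rfl fun k _ => ?_
    rw [Matrix.of_apply, alt_even, alt_odd, hB, (orth_aux a _).2, (semi_aux a _).2]
    ring
  · intro u v huv
    have huv' : (u : ℕ) < v := huv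
    rw [Matrix.of_apply, alt_even, alt_odd, hB, orth a _ _ (by omega), (semi_aux a _).1 _ huv']
    ring

theorem arc_E (a : R) (u v : ℕ) : B 2 a (P a (2 * u)) (P a (2 * v + 1)) =
    if u ≤ v then 2 * (2 * v + 1) * a ^ (u + v) else -(4 * u * a ^ (u + v)) := by
  have hB : B 2 a (P a (2 * u)) (P a (2 * v + 1)) =
      (2 * v + 1) * Lm 2 a (P a (2 * u) * U a (2 * v)) -
        Lm 2 a (P a (2 * v + 1) * derivative (P a (2 * u))) := by
    rw [B_apply, map_sub, derP, ← Lm_C_mul]
    congr 2
    push_cast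
    simp only [C_add, C_mul, C_ofNat, C_1]
    ring
  rw [hB]
  split_ifs with h
  · obtain ⟨t, rfl⟩ : ∃ t, v = u + t := ⟨v - u, by omega⟩
    have e1 : Lm 2 a (P a (2 * u) * U a (2 * (u + t))) = 2 * a ^ (u + (u + t)) := by
      rw [show 2 * (u + t) = 2 * u + 2 * t by ring, PU_A, map_add, Lm_C_mul,
        show 2 * (2 * u) + 2 * t = 2 * (2 * u + t) by ring, L_U_arc_even, L_U_arc_even]
      ring
    have e2 : Lm 2 a (P a (2 * (u + t) + 1) * derivative (P a (2 * u))) = 0 := by
      rcases u with _ | u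
      · simp [P]
      · rw [show 2 * (u + 1) = 2 * u + 1 + 1 by ring, derP,
          show 2 * (u + 1 + t) + 1 = (2 * u + 1) + 2 + 2 * t by ring]
        have := PU_B a (2 * u + 1) (2 * t)
        rw [show P a (2 * u + 1 + 2 + 2 * t) * (C (((2 * u + 1 : ℕ) : R) + 1) * U a (2 * u + 1)) =
          C (((2 * u + 1 : ℕ) : R) + 1) * (P a (2 * u + 1 + 2 + 2 * t) * U a (2 * u + 1)) by ring,
          this, Lm_C_mul, map_sub, Lm_C_mul,
          show 2 * (2 * u + 1) + 2 + 2 * t = 2 * (2 * u + 2 + t) by ring, L_U_arc_even,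
          L_U_arc_even]
        ring
    rw [e1, e2]
    ring
  · obtain ⟨t, rfl⟩ : ∃ t, u = v + 1 + t := ⟨u - v - 1, by omega⟩
    have e1 : Lm 2 a (P a (2 * (v + 1 + t)) * U a (2 * v)) = 0 := by
      rw [show 2 * (v + 1 + t) = 2 * v + 2 + 2 * t by ring, PU_B, map_sub, Lm_C_mul,
        show 2 * (2 * v) + 2 + 2 * t = 2 * (2 * v + 1 + t) by ring, L_U_arc_even, L_U_arc_even]
      ring
    have e2 : Lm 2 a (P a (2 * v + 1) * derivative (P a (2 * (v + 1 + t)))) =
        4 * (((v + 1 + t : ℕ) : R)) * a ^ (v + 1 + t + v) := by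
      rw [show 2 * (v + 1 + t) = (2 * v + 1 + 2 * t) + 1 by ring, derP]
      have := PU_A a (2 * v + 1) (2 * t)
      rw [show P a (2 * v + 1) * (C (((2 * v + 1 + 2 * t : ℕ) : R) + 1) * U a (2 * v + 1 + 2 * t)) =
          C (((2 * v + 1 + 2 * t : ℕ) : R) + 1) * (P a (2 * v + 1) * U a (2 * v + 1 + 2 * t)) by ring,
          this, Lm_C_mul, map_add, Lm_C_mul,
          show 2 * (2 * v + 1) + 2 * t = 2 * (2 * v + 1 + t) by ring, L_U_arc_even,
          L_U_arc_even]
      push_cast
      ring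
    rw [e1, e2]
    ring

/-- **Arcsine Pfaffian.** -/
theorem pf_arc (m : ℕ) (a c : R) :
    pf (m + 1) (Matrix.of fun i j : Fin (2 * (m + 1)) =>
      (((j : ℕ) : R) - (i : ℕ)) * Lm 2 a ((X + C c) ^ ((i : ℕ) + (j : ℕ) - 1))) =
      (2 * m + 1) * a ^ m * ∏ k ∈ range m, (2 * (4 * k + 3) * a ^ (2 * k + 1)) := by
  set e : ℕ → R[X] := fun u => if u = 0 then 1 else P a (2 * u) - C a * P a (2 * (u - 1)) with he
  have e0 : e 0 = 1 := by simp [he]
  have e1 : ∀ u, e (u + 1) = P a (2 * (u + 1)) - C a * P a (2 * u) := by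
    intro u; simp [he]
  have hemon : ∀ k, Mon (2 * k) (e k) := by
    intro k
    rcases k with _ | k
    · rw [e0]; exact Mon_U a 0
    · rw [e1, show 2 * (k + 1) = 2 * k + 1 + 1 by ring]
      rcases k with _ | k
      · have h := (Mon_P a 1).add_low (-(2 * a)) (Mon_U a 0) (by omega)
        rw [show P a (2 * 0 + 1 + 1) - C a * P a (2 * 0) = P a (1 + 1) + C (-(2 * a)) * U a 0 by
          simp only [P, U, C_neg, C_mul, C_ofNat]; ring]
        exact h
      · have h := (Mon_P a (2 * (k + 1) + 1)).add_low (-a) (Mon_P a (2 * k + 1)) (by omega)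
        rw [sub_eq_add_neg, ← neg_mul, ← C_neg]
        exact h
  have hepar : ∀ k, (e k).comp (-X) = C 1 * e k := by
    intro k
    rcases k with _ | k
    · rw [e0]; simp
    · rw [e1, sub_comp, mul_comp, P_par, P_par, pow_mul, pow_mul]
      simp
  rw [pf_shift (m + 1) 2 a c (alt e (fun v => P a (2 * v + 1)))
    (alt_mon _ _ hemon (fun k => Mon_P a _))
    (fun u v => by
      rw [alt_even, alt_even]
      exact B_par 2 a 1 (by ring) _ _ (hepar u) (hepar v))
    (fun u v => by
      rw [alt_odd, alt_odd]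
      refine B_par 2 a (-1) (by ring) _ _ ?_ ?_
      · rw [P_par, pow_succ, pow_mul]; simp
      · rw [P_par, pow_succ, pow_mul]; simp)]
  set M : Matrix (Fin (m + 1)) (Fin (m + 1)) R := Matrix.of fun u v : Fin (m + 1) =>
    B 2 a (alt e (fun v => P a (2 * v + 1)) (2 * (u : ℕ)))
      (alt e (fun v => P a (2 * v + 1)) (2 * (v : ℕ) + 1)) with hM
  have hM0 : ∀ v : Fin (m + 1), M 0 v = (2 * (v : ℕ) + 1) * a ^ (v : ℕ) := by
    intro v
    rw [hM, Matrix.of_apply, alt_even, alt_odd, Fin.val_zero, e0, B_apply, derP]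
    simp only [derivative_one, mul_zero, sub_zero, one_mul]
    rw [Lm_C_mul, L_U_arc_even]
    push_cast
    ring
  have hM1 : ∀ (u : ℕ) (hu : u + 1 < m + 1) (v : Fin (m + 1)), M ⟨u + 1, hu⟩ v =
      B 2 a (P a (2 * (u + 1))) (P a (2 * (v : ℕ) + 1)) -
        a * B 2 a (P a (2 * u)) (P a (2 * (v : ℕ) + 1)) := by
    intro u hu v
    rw [hM, Matrix.of_apply, alt_even, alt_odd]
    show B 2 a (e (u + 1)) _ = _
    rw [e1, map_sub, LinearMap.sub_apply, ← smul_eq_C_mul, LinearMap.map_smul₂, smul_eq_mul]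
  rw [Matrix.det_succ_column M (Fin.last m), Finset.sum_eq_single 0]
  · have hlow : (M.submatrix (Fin.succAbove 0) (Fin.last m).succAbove).det =
        ∏ k ∈ range m, (-(2 * (4 * (k : R) + 3) * a ^ (2 * k + 1))) := by
      rw [Matrix.det_of_isLowerTriangular]
      · rw [Finset.prod_range]
        refine Finset.prod_congr rfl fun k _ => ?_
        rw [Matrix.submatrix_apply, Fin.succAbove_zero, Fin.succAbove_last]
        have : (k.succ : Fin (m + 1)) = ⟨(k : ℕ) + 1, by omega⟩ := rfl
        rw [this, hM1, arc_E, arc_E, if_neg (by simp), if_pos (by simp), Fin.val_castSucc]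
        push_cast
        ring
      · intro u v huv
        have huv' : (u : ℕ) < v := huv
        rw [Matrix.submatrix_apply, Fin.succAbove_zero, Fin.succAbove_last]
        have : (u.succ : Fin (m + 1)) = ⟨(u : ℕ) + 1, by omega⟩ := rfl
        rw [this, hM1, arc_E, arc_E, Fin.val_castSucc, if_pos (by omega), if_pos (by omega)]
        ring
    rw [hlow, hM0, Finset.prod_neg, Finset.card_range]
    simp only [Fin.val_zero, Fin.val_last, zero_add]
    have hsq : ((-1 : R) ^ m) * (-1) ^ m = 1 := by rw [← mul_pow]; simp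
    linear_combination ((2 * m + 1) * a ^ m *
      ∏ k ∈ range m, (2 * (4 * (k : R) + 3) * a ^ (2 * k + 1))) * hsq
  · intro b _ hb
    obtain ⟨u, rfl⟩ := Fin.exists_succ_eq.2 hb
    have : (u.succ : Fin (m + 1)) = ⟨(u : ℕ) + 1, by omega⟩ := rfl
    rw [this, hM1, arc_E, arc_E, Fin.val_last, if_pos (by omega), if_pos (by omega)]
    ring
  · intro h
    exact absurd (Finset.mem_univ _) h

end Pool.Agent.X234.PF.Ch
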