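import Pool.Agent.X234.PF.Q12

/-!
# Skew forms of the semicircle and arcsine laws
-/

set_option autoImplicit false

namespace Pool.Agent.X234.PF.Ch

open Finset Equiv Polynomial

variable {R : Type*} [CommRing R] [Algebra ℚ R]

/-- moments: `l = 4` semicircle, `l = 2` arcsine, on `[-2 √a, 2 √a]` -/
noncomputable def mu (l : ℕ) (a : R) : ℕ → R
  | 0 => 1
  | 1 => 0
  | (n + 2) => ((4 * (n + 1) / (n + l) : ℚ)) • (a * mu l a n)

/-- the moment functional -/
noncomputable def Lm (l : ℕ) (a : R) : R[X] →ₗ[R] R :=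
  Polynomial.lsum (fun r => (mu l a r) • (LinearMap.id : R →ₗ[R] R))

theorem Lm_monomial (l : ℕ) (a : R) (r : ℕ) (c : R) : Lm l a (monomial r c) = mu l a r * c := by
  simp [Lm, Polynomial.lsum_apply, Polynomial.sum_monomial_index]

theorem Lm_C_mul (l : ℕ) (a c : R) (f : R[X]) : Lm l a (C c * f) = c * Lm l a f := by
  rw [← smul_eq_C_mul, map_smul, smul_eq_mul]

theorem Lm_one (l : ℕ) (a : R) : Lm l a 1 = 1 := by
  have := Lm_monomial l a 0 1
  simpa [mu] using this

theorem mu_rec (l : ℕ) (hl : 0 < l) (a : R) (n : ℕ) :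
    ((n : R) + l) * mu l a (n + 2) = 4 * (n + 1) * (a * mu l a n) := by
  have h : ((n : R) + l) = algebraMap ℚ R ((n : ℚ) + l) := by simp
  have h2 : (4 * ((n : R) + 1)) = algebraMap ℚ R (4 * ((n : ℚ) + 1)) := by
    rw [map_mul, map_ofNat, map_add, map_natCast, map_one]
  have hl' : ((n : ℚ) + l) ≠ 0 := by positivity
  rw [mu, Algebra.smul_def, h, h2, ← mul_assoc, ← map_mul]
  congr 2
  field_simp

theorem mu_odd (l : ℕ) (a : R) (k : ℕ) : mu l a (2 * k + 1) = 0 := by
  induction k with
  | zero => rfl
  | succ k ih =>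
    rw [show 2 * (k + 1) + 1 = (2 * k + 1) + 2 by ring, mu, ih, mul_zero, smul_zero]

theorem pearson (l : ℕ) (hl : 0 < l) (a : R) (f : R[X]) :
    Lm l a ((C (4 * a) - X ^ 2) * derivative f) = ((l : R) - 1) * Lm l a (X * f) := by
  induction f using Polynomial.induction_on' with
  | add f g hf hg =>
    rw [map_add, mul_add, map_add, hf, hg, mul_add, map_add]
    ring
  | monomial r c =>
    rw [derivative_monomial, X_mul_monomial, Lm_monomial, sub_mul, map_sub, Lm_C_mul,
      Lm_monomial, X_pow_mul_monomial, Lm_monomial]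
    rcases r with _ | r
    · simp [mu]
    · rw [Nat.add_sub_cancel, show r + 1 + 1 = r + 2 from rfl]
      have := mu_rec l hl a r
      push_cast
      linear_combination (-c) * this

/-- Chebyshev polynomials of the second kind, monic -/
noncomputable def U (a : R) : ℕ → R[X]
  | 0 => 1
  | 1 => X
  | (r + 2) => X * U a (r + 1) - C a * U a r

/-- Chebyshev polynomials of the first kind, monic (for `r ≥ 1`) -/
noncomputable def P (a : R) : ℕ → R[X]
  | 0 => 2
  | 1 => X
  | (r + 2) => X * P a (r + 1) - C a * P a r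

theorem dU (a : R) (s : ℕ) : (C (4 * a) - X ^ 2) * derivative (U a (s + 1)) =
    C (2 * a * (s + 2)) * U a s - C ((s : R) + 1) * (X * U a (s + 1)) := by
  induction s using Nat.strong_induction_on with
  | _ s ih =>
    rcases s with _ | _ | s
    · simp only [U, derivative_X, C_mul, C_add, C_ofNat, Nat.cast_zero, C_0, C_1]
      ring
    · simp only [U, derivative_sub, derivative_mul, derivative_X, derivative_C, derivative_one,
        C_mul, C_add, C_ofNat, C_1, Nat.cast_one, Nat.cast_zero, zero_add]
      ring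
    · have h1 := ih (s + 1) (by omega)
      have h0 := ih s (by omega)
      have e : U a (s + 1 + 1 + 1) = X * U a (s + 2) - C a * U a (s + 1) := rfl
      have e2 : U a (s + 2) = X * U a (s + 1) - C a * U a s := rfl
      rw [e, derivative_sub, derivative_mul, derivative_mul, derivative_X, derivative_C,
        show s + 1 + 1 = s + 2 from rfl] at *
      simp only [C_mul, C_add, C_ofNat, C_1, Nat.cast_add, Nat.cast_one, Nat.cast_ofNat,
        map_natCast] at h1 h0 ⊢
      linear_combination X * h1 - C a * h0 - 2 * C a * (s + 2) * e2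

theorem L_U_rec (l : ℕ) (hl : 0 < l) (a : R) (s : ℕ) :
    ((s : R) + l) * Lm l a (U a (s + 2)) = a * (s + 4 - l) * Lm l a (U a s) := by
  have h := pearson l hl a (U a (s + 1))
  have e : X * U a (s + 1) = U a (s + 2) + C a * U a s := by
    rw [show U a (s + 2) = X * U a (s + 1) - C a * U a s from rfl]; ring
  rw [dU, map_sub, Lm_C_mul, Lm_C_mul, e, map_add, Lm_C_mul] at h
  linear_combination -h

theorem L_U_semi (a : R) (r : ℕ) : Lm 4 a (U a (r + 1)) = 0 := by
  induction r using Nat.strong_induction_on with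
  | _ r ih =>
    rcases r with _ | r
    · have := Lm_monomial 4 a 1 1
      rw [monomial_one_right_eq_X_pow, pow_one] at this
      simpa [U, mu] using this
    · have h := L_U_rec 4 (by norm_num) a r
      have hz : a * ((r : R) + 4 - (4 : ℕ)) * Lm 4 a (U a r) = 0 := by
        rcases r with _ | r
        · push_cast; ring
        · rw [ih r (by omega)]; ring
      rw [hz] at h
      have h2 : ((r : R) + (4 : ℕ)) = algebraMap ℚ R ((r : ℚ) + 4) := by
        rw [map_add, map_ofNat, map_natCast, Nat.cast_ofNat]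
      have h3 : algebraMap ℚ R (((r : ℚ) + 4)⁻¹) * ((r : R) + (4 : ℕ)) = 1 := by
        rw [h2, ← map_mul, inv_mul_cancel₀ (by positivity), map_one]
      calc Lm 4 a (U a (r + 1 + 1)) = (algebraMap ℚ R (((r : ℚ) + 4)⁻¹) * ((r : R) + (4 : ℕ))) *
            Lm 4 a (U a (r + 2)) := by rw [h3, one_mul]
        _ = 0 := by rw [mul_assoc, h, mul_zero]

theorem L_U_arc (a : R) (r : ℕ) : Lm 2 a (U a (r + 2)) = a * Lm 2 a (U a r) := by
  have h := L_U_rec 2 (by norm_num) a r
  have h2 : ((r : R) + (2 : ℕ)) = algebraMap ℚ R ((r : ℚ) + 2) := by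
    rw [map_add, map_ofNat, map_natCast, Nat.cast_ofNat]
  have h3 : algebraMap ℚ R (((r : ℚ) + 2)⁻¹) * ((r : R) + (2 : ℕ)) = 1 := by
    rw [h2, ← map_mul, inv_mul_cancel₀ (by positivity), map_one]
  have h4 : ((r : R) + 4 - (2 : ℕ)) = ((r : R) + (2 : ℕ)) := by push_cast; ring
  rw [h4] at h
  calc Lm 2 a (U a (r + 2)) = (algebraMap ℚ R (((r : ℚ) + 2)⁻¹) * ((r : R) + (2 : ℕ))) *
        Lm 2 a (U a (r + 2)) := by rw [h3, one_mul]
    _ = algebraMap ℚ R (((r : ℚ) + 2)⁻¹) * (((r : R) + (2 : ℕ)) * Lm 2 a (U a (r + 2))) := by ring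
    _ = (algebraMap ℚ R (((r : ℚ) + 2)⁻¹) * ((r : R) + (2 : ℕ))) * (a * Lm 2 a (U a r)) := by
        rw [h]; ring
    _ = _ := by rw [h3, one_mul]

theorem L_U_arc_even (a : R) (k : ℕ) : Lm 2 a (U a (2 * k)) = a ^ k := by
  induction k with
  | zero => simp [U, Lm_one]
  | succ k ih => rw [show 2 * (k + 1) = 2 * k + 2 by ring, L_U_arc, ih, pow_succ]; ring

theorem L_U_arc_odd (a : R) (k : ℕ) : Lm 2 a (U a (2 * k + 1)) = 0 := by
  induction k with
  | zero =>
    have := Lm_monomial 2 a 1 1
    rw [monomial_one_right_eq_X_pow, pow_one] at this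
    simpa [U, mu] using this
  | succ k ih => rw [show 2 * (k + 1) + 1 = 2 * k + 1 + 2 by ring, L_U_arc, ih, mul_zero]

theorem orth_aux (a : R) (s : ℕ) : (∀ r, s < r → Lm 4 a (U a r * U a s) = 0) ∧
    Lm 4 a (U a s * U a s) = a ^ s := by
  induction s using Nat.strong_induction_on with
  | _ s ih =>
    have hX : ∀ r, X * U a (r + 1) = U a (r + 2) + C a * U a r := by
      intro r
      rw [show U a (r + 2) = X * U a (r + 1) - C a * U a r from rfl]; ring
    rcases s with _ | _ | s
    · refine ⟨fun r hr => ?_, ?_⟩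
      · obtain ⟨r', rfl⟩ : ∃ r', r = r' + 1 := ⟨r - 1, by omega⟩
        rw [show U a 0 = 1 from rfl, mul_one, L_U_semi]
      · rw [show U a 0 = 1 from rfl, mul_one, Lm_one, pow_zero]
    · refine ⟨fun r hr => ?_, ?_⟩
      · obtain ⟨r', rfl⟩ : ∃ r', r = r' + 1 := ⟨r - 1, by omega⟩
        obtain ⟨r'', rfl⟩ : ∃ r'', r' = r'' + 1 := ⟨r' - 1, by omega⟩
        rw [show U a (0 + 1) = X from rfl, mul_comm, hX, map_add, Lm_C_mul, L_U_semi, L_U_semi]
        ring
      · have := hX 0
        rw [show U a (0 + 1) = X from rfl] at this ⊢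
        rw [this, map_add, Lm_C_mul, show U a 0 = 1 from rfl, Lm_one,
          show U a (0 + 2) = U a (1 + 1) from rfl, L_U_semi]
        ring
    · obtain ⟨a1, a2⟩ := ih (s + 1) (by omega)
      obtain ⟨b1, b2⟩ := ih s (by omega)
      have hrec : ∀ r, Lm 4 a (U a (r + 1) * U a (s + 1 + 1)) =
          Lm 4 a (U a (r + 2) * U a (s + 1)) + a * Lm 4 a (U a r * U a (s + 1)) -
            a * Lm 4 a (U a (r + 1) * U a s) := by
        intro r
        rw [← Lm_C_mul, ← Lm_C_mul, ← map_add, ← map_sub]
        congr 1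
        rw [show U a (s + 1 + 1) = X * U a (s + 1) - C a * U a s from rfl]
        linear_combination (U a (s + 1)) * hX r
      refine ⟨fun r hr => ?_, ?_⟩
      · obtain ⟨r', rfl⟩ : ∃ r', r = r' + 1 := ⟨r - 1, by omega⟩
        rw [hrec, a1 _ (by omega), a1 _ (by omega), b1 _ (by omega)]
        ring
      · rw [hrec, a1 _ (by omega), a2, b1 _ (by omega)]
        ring

theorem orth (a : R) (r s : ℕ) (h : r ≠ s) : Lm 4 a (U a r * U a s) = 0 := by
  rcases lt_or_gt_of_ne h with h | h
  · rw [mul_comm]; exact (orth_aux a r).1 s h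
  · exact (orth_aux a s).1 r h

theorem derU (a : R) (s : ℕ) : derivative (U a (s + 2)) =
    C ((s : R) + 2) * U a (s + 1) + C a * derivative (U a s) := by
  induction s using Nat.strong_induction_on with
  | _ s ih =>
    have hd : ∀ r, derivative (U a (r + 2)) = U a (r + 1) + X * derivative (U a (r + 1)) -
        C a * derivative (U a r) := by
      intro r
      rw [show U a (r + 2) = X * U a (r + 1) - C a * U a r from rfl, derivative_sub,
        derivative_mul, derivative_mul, derivative_X, derivative_C]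
      ring
    rcases s with _ | _ | s
    · simp only [U, derivative_sub, derivative_mul, derivative_X, derivative_C, derivative_one,
        Nat.cast_zero, zero_add, C_ofNat]
      ring
    · simp only [U, derivative_sub, derivative_mul, derivative_X, derivative_C, derivative_one,
        Nat.cast_one, zero_add, C_ofNat, C_add, C_1]
      ring
    · have h1 := ih (s + 1) (by omega)
      have h0 := ih s (by omega)
      have d0 := hd (s + 2)
      have d1 := hd s
      have e3 : U a (s + 3) = X * U a (s + 2) - C a * U a (s + 1) := rfl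
      rw [show s + 1 + 1 = s + 2 from rfl, show s + 1 + 2 = s + 3 from rfl] at *
      rw [show s + 2 + 1 = s + 3 from rfl] at *
      rw [d0]
      simp only [C_add, map_natCast, C_ofNat, C_1, Nat.cast_add, Nat.cast_one, Nat.cast_ofNat]
        at h1 h0 ⊢
      linear_combination X * h1 - C a * h0 - C a * d1 - (s + 3) * e3

theorem P_eq (a : R) (t : ℕ) : P a (t + 2) = U a (t + 2) - C a * U a t := by
  induction t using Nat.strong_induction_on with
  | _ t ih =>
    rcases t with _ | _ | t
    · simp only [P, U]; ring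
    · simp only [P, U]; ring
    · have h1 := ih (t + 1) (by omega)
      have h0 := ih t (by omega)
      rw [show P a (t + 1 + 1 + 2) = X * P a (t + 1 + 2) - C a * P a (t + 2) from rfl, h1, h0,
        show U a (t + 1 + 1 + 2) = X * U a (t + 1 + 2) - C a * U a (t + 2) from rfl,
        show U a (t + 1 + 1) = X * U a (t + 1) - C a * U a t from rfl]
      ring

theorem derP (a : R) (s : ℕ) : derivative (P a (s + 1)) = C ((s : R) + 1) * U a s := by
  rcases s with _ | s
  · simp [P, U]
  · rw [show s + 1 + 1 = s + 2 from rfl, P_eq, derivative_sub, derivative_mul, derivative_C, derU]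
    push_cast
    simp only [C_add, map_natCast, C_ofNat, C_1]
    ring

theorem PU_A (a : R) (r : ℕ) : ∀ t, P a r * U a (r + t) = U a (2 * r + t) + C (a ^ r) * U a t := by
  have hX : ∀ r, X * U a (r + 1) = U a (r + 2) + C a * U a r := by
    intro r
    rw [show U a (r + 2) = X * U a (r + 1) - C a * U a r from rfl]; ring
  induction r using Nat.strong_induction_on with
  | _ r ih =>
    intro t
    rcases r with _ | _ | r
    · simp only [P, pow_zero, C_1, mul_zero, zero_add]; ring
    · have := hX t
      rw [show 0 + 1 + t = t + 1 by ring, show 2 * (0 + 1) + t = t + 2 by ring, zero_add, pow_one]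
      exact this
    · have h1 := ih (r + 1) (by omega) (t + 2)
      have h2 := ih (r + 1) (by omega) t
      have h0 := ih r (by omega) (t + 2)
      have hx := hX (r + 1 + t)
      rw [show P a (r + 1 + 1) = X * P a (r + 1) - C a * P a r from rfl,
        show r + 1 + 1 + t = r + 1 + t + 1 by ring, show 2 * (r + 1 + 1) + t = 2 * (r + 1) + (t + 2) by
          ring]
      rw [show r + 1 + (t + 2) = r + 1 + t + 2 by ring] at h1
      rw [show r + (t + 2) = r + 1 + t + 1 by ring,
        show 2 * r + (t + 2) = 2 * (r + 1) + t by ring] at h0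
      simp only [C_pow] at h1 h2 h0 ⊢
      linear_combination (P a (r + 1)) * hx + h1 + C a * h2 - C a * h0

theorem PU_B (a : R) (s : ℕ) : ∀ t, P a (s + 2 + t) * U a s =
    U a (2 * s + 2 + t) - C (a ^ (s + 1)) * U a t := by
  have hX : ∀ r, X * U a (r + 1) = U a (r + 2) + C a * U a r := by
    intro r
    rw [show U a (r + 2) = X * U a (r + 1) - C a * U a r from rfl]; ring
  induction s using Nat.strong_induction_on with
  | _ s ih =>
    intro t
    rcases s with _ | _ | s
    · simp only [mul_zero, zero_add, pow_one]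
      rw [show 2 + t = t + 2 by ring, P_eq, show U a 0 = 1 from rfl]
      ring
    · have e : P a (t + 2 + 2) = X * P a (t + 2 + 1) - C a * P a (t + 2) := rfl
      have p1 := P_eq a (t + 2)
      have p2 := P_eq a t
      rw [show 0 + 1 + 2 + t = t + 2 + 1 by ring, show 2 * (0 + 1) + 2 + t = t + 2 + 2 by ring,
        show U a (0 + 1) = X from rfl]
      simp only [C_pow, zero_add]
      linear_combination -e + p1 + C a * p2
    · have h1 := ih (s + 1) (by omega) (t + 1)
      have h0 := ih s (by omega) (t + 2)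
      have x1 := hX (2 * s + 4 + t)
      have x2 := hX t
      rw [show s + 1 + 2 + (t + 1) = s + 1 + 1 + 2 + t by ring,
        show 2 * (s + 1) + 2 + (t + 1) = 2 * s + 4 + t + 1 by ring] at h1
      rw [show s + 2 + (t + 2) = s + 1 + 1 + 2 + t by ring,
        show 2 * s + 2 + (t + 2) = 2 * s + 4 + t by ring] at h0
      rw [show U a (s + 1 + 1) = X * U a (s + 1) - C a * U a s from rfl,
        show 2 * (s + 1 + 1) + 2 + t = 2 * s + 4 + t + 2 by ring]
      simp only [C_pow] at h1 h0 ⊢
      linear_combination X * h1 - C a * h0 + x1 - C a ^ (s + 2) * x2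

end Pool.Agent.X234.PF.Ch
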