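import Pool.Agent.X234.PF.Q12

/-!
# Closed forms for the Al-Salam-Carlitz Pfaffians
-/

set_option autoImplicit false

namespace Pool.Agent.X234.PF

open Finset Equiv Polynomial

section maps

variable {R S : Type*} [CommRing R] [CommRing S] (φ : R →+* S) (a q : R)

theorem gg_map (r : ℕ) : φ (gg a q r) = gg (φ a) (φ q) r := by
  induction r using Nat.strong_induction_on with
  | _ r ih =>
    rcases r with _ | _ | r
    · simp [gg]
    · simp [gg]
    · rw [show r + 1 + 1 = r + 2 from rfl, gg, gg, map_sub, map_mul, map_mul, map_mul, map_add,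
        map_one, map_sub, map_one, map_pow, ih (r + 1) (by omega), ih r (by omega)]

theorem hh_map (r : ℕ) : φ (hh a q r) = hh (φ a) (φ q) r := by
  induction r with
  | zero => simp [hh]
  | succ r ih => simp [hh, ih]

theorem Rt_map (r : ℕ) : φ (Rt a q r) = Rt (φ a) (φ q) r := by
  induction r using Nat.strong_induction_on with
  | _ r ih =>
    rcases r with _ | _ | r
    · simp [Rt]
    · simp [Rt]
    · rw [show r + 1 + 1 = r + 2 from rfl, Rt, Rt, map_add, map_mul, map_mul, map_mul, map_mul,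
        map_mul, map_add, map_one, map_sub, map_one, map_pow, map_pow, ih (r + 1) (by omega),
        ih r (by omega)]

end maps

theorem Rt_zero {R : Type*} [CommRing R] (q : R) (n : ℕ) : Rt 0 q n = q ^ (n * (n - 1)) := by
  induction n using Nat.strong_induction_on with
  | _ n ih =>
    rcases n with _ | _ | n
    · simp [Rt]
    · simp [Rt]
    · rw [show n + 1 + 1 = n + 2 from rfl, Rt, ih (n + 1) (by omega), add_zero, one_mul, zero_mul,
        zero_mul, zero_mul, add_zero, ← pow_add]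
      congr 1
      rw [Nat.add_sub_cancel, show n + 2 - 1 = n + 1 from rfl]
      ring

variable {K : Type*} [Field K] [CharZero K]

/-- **Second Pfaffian.** -/
theorem pf_second (a q : K) (hq0 : q ≠ 0) (hq : ∀ m : ℕ, 1 ≤ m → q ^ m ≠ 1) (n : ℕ) :
    pf n (Matrix.of fun i j : Fin (2 * n) =>
      (q ^ (i : ℕ) - q ^ (j : ℕ)) * gg a q ((i : ℕ) + (j : ℕ))) =
      (∏ k ∈ range n, ((1 - q ^ (2 * k + 1)) * hh a q (2 * k))) * Rt a q n := by
  have hcz : CharZero K[X] := charZero_of_injective_ringHom (C_injective (R := K))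
  set F := FractionRing K[X] with hF
  have : CharZero F := charZero_of_injective_algebraMap (IsFractionRing.injective K[X] F)
  set φ : K[X] →+* F := algebraMap K[X] F with hφ
  have hinj : Function.Injective φ := IsFractionRing.injective K[X] F
  have hRt : ∀ k, Rt (φ X) (φ (C q)) k ≠ 0 := by
    intro k h
    rw [← Rt_map] at h
    have h1 : Rt (X : K[X]) (C q) k = 0 := hinj (by rw [h, map_zero])
    have h2 := congrArg (Polynomial.evalRingHom (0 : K)) h1
    rw [Rt_map, map_zero] at h2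
    simp only [coe_evalRingHom, eval_X, eval_C, Rt_zero] at h2
    exact pow_ne_zero _ hq0 h2
  have h1q : ∀ m : ℕ, 1 ≤ m → (1 - (φ (C q)) ^ m) ≠ 0 := by
    intro m hm h
    have h1 : φ (C (1 - q ^ m)) = 0 := by
      rw [C_sub, C_1, C_pow, map_sub, map_one, map_pow, h]
    have h2 : C (1 - q ^ m) = (0 : K[X]) := hinj (by rw [h1, map_zero])
    rw [C_eq_zero] at h2
    exact hq m hm (sub_eq_zero.1 h2).symm
  have hX : φ X ≠ 0 := fun h => X_ne_zero (hinj (by rw [h, map_zero]))
  have hqq : φ (C q) ≠ 0 := fun h => hq0 (C_eq_zero.1 (hinj (by rw [h, map_zero])))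
  have hhh : ∀ r, hh (φ X) (φ (C q)) r ≠ 0 := by
    intro r
    induction r with
    | zero => simp [hh]
    | succ r ih =>
      rw [hh]
      exact mul_ne_zero (neg_ne_zero.2 (mul_ne_zero (mul_ne_zero hX (pow_ne_zero _ hqq))
        (h1q _ (by omega)))) ih
  have hdd : ∀ k, dd (φ X) (φ (C q)) k ≠ 0 := by
    intro k
    rw [dd]
    exact div_ne_zero (mul_ne_zero (mul_ne_zero (h1q _ (by omega)) (hhh _)) (hRt _)) (hRt _)
  have h := pf_second_gen (φ X) (φ (C q)) hdd hRt n
  have hL : pf n (Matrix.of fun i j : Fin (2 * n) =>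
      ((φ (C q)) ^ (i : ℕ) - (φ (C q)) ^ (j : ℕ)) * gg (φ X) (φ (C q)) ((i : ℕ) + (j : ℕ))) =
      φ (pf n (Matrix.of fun i j : Fin (2 * n) =>
      ((C q : K[X]) ^ (i : ℕ) - (C q) ^ (j : ℕ)) * gg X (C q) ((i : ℕ) + (j : ℕ)))) := by
    rw [pf_map]
    congr 1
    ext i j
    simp only [Matrix.of_apply, Matrix.map_apply, map_mul, map_sub, map_pow, gg_map]
  have hRr : (∏ k ∈ range n, ((1 - (φ (C q)) ^ (2 * k + 1)) * hh (φ X) (φ (C q)) (2 * k))) *
      Rt (φ X) (φ (C q)) n = φ ((∏ k ∈ range n, ((1 - (C q : K[X]) ^ (2 * k + 1)) *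
        hh X (C q) (2 * k))) * Rt X (C q) n) := by
    simp only [map_mul, map_prod, map_sub, map_one, map_pow, hh_map, Rt_map]
  rw [hL, hRr] at h
  have h2 := congrArg (Polynomial.evalRingHom a) (hinj h)
  rw [pf_map] at h2
  simp only [map_mul, map_prod, map_sub, map_one, map_pow, hh_map, Rt_map, coe_evalRingHom,
    eval_C, eval_X] at h2
  rw [← h2]
  congr 1
  ext i j
  simp only [Matrix.of_apply, Matrix.map_apply]
  have h3 := gg_map (Polynomial.evalRingHom a) (X : K[X]) (C q) ((i : ℕ) + (j : ℕ))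
  simp only [coe_evalRingHom, eval_C, eval_X] at h3
  rw [← h3]
  simp

/-- `(q; q)_m` -/
def qp (q : K) (m : ℕ) : K := ∏ i ∈ range m, (1 - q ^ (i + 1))

/-- the Gaussian binomial `[m, k]_q = (q; q)_m / ((q; q)_k (q; q)_(m-k))`, for `k ≤ m` -/
def gb (q : K) (m k : ℕ) : K := qp q m / (qp q k * qp q (m - k))

theorem qp_ne (q : K) (hq : ∀ m : ℕ, 1 ≤ m → q ^ m ≠ 1) (m : ℕ) : qp q m ≠ 0 := by
  rw [qp, Finset.prod_ne_zero_iff]
  intro i _ h
  exact hq (i + 1) (by omega) (sub_eq_zero.1 h).symm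

theorem qp_succ (q : K) (m : ℕ) : qp q (m + 1) = qp q m * (1 - q ^ (m + 1)) := by
  rw [qp, Finset.prod_range_succ, ← qp]

/-- the convolution of a sequence with itself, weighted by powers of `a` -/
def W (a : K) (w : ℕ → K) (n : ℕ) : K := ∑ x ∈ antidiagonal n, w x.1 * w x.2 * a ^ x.1

theorem gsum (a q : K) (hq : ∀ m : ℕ, 1 ≤ m → q ^ m ≠ 1) (n : ℕ) :
    ∑ j ∈ range (n + 1), gb q n j * a ^ j = gg a q n := by
  set w : ℕ → K := fun i => (qp q i)⁻¹ with hw
  have hw1 : ∀ i, (1 - q ^ (i + 1)) * w (i + 1) = w i := by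
    intro i
    have h1 := qp_ne q hq i
    have h2 := qp_ne q hq (i + 1)
    simp only [hw]
    rw [qp_succ] at h2 ⊢
    have h3 := right_ne_zero_of_mul h2
    field_simp
  have hrec : ∀ n, (1 - q ^ (n + 2)) * W a w (n + 2) = (1 + a) * W a w (n + 1) - a * W a w n := by
    intro n
    have e1 : a * W a w (n + 1) = ∑ x ∈ antidiagonal (n + 2),
        (1 - q ^ x.1) * (w x.1 * w x.2 * a ^ x.1) := by
      rw [Finset.Nat.sum_antidiagonal_succ, W, Finset.mul_sum]
      simp only [pow_zero, sub_self, zero_mul, zero_add]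
      refine Finset.sum_congr rfl fun x _ => ?_
      rw [← hw1 x.1]; ring
    have e2 : W a w (n + 1) = ∑ x ∈ antidiagonal (n + 2),
        (1 - q ^ x.2) * (w x.1 * w x.2 * a ^ x.1) := by
      rw [Finset.Nat.sum_antidiagonal_succ', W]
      simp only [pow_zero, sub_self, zero_mul, zero_add]
      refine Finset.sum_congr rfl fun x _ => ?_
      rw [← hw1 x.2]; ring
    have e3 : a * W a w n = ∑ x ∈ antidiagonal (n + 2),
        (1 - q ^ x.1) * (1 - q ^ x.2) * (w x.1 * w x.2 * a ^ x.1) := by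
      rw [Finset.Nat.sum_antidiagonal_succ, Finset.Nat.sum_antidiagonal_succ', W, Finset.mul_sum]
      simp only [pow_zero, sub_self, zero_mul, mul_zero, zero_add]
      refine Finset.sum_congr rfl fun x _ => ?_
      rw [← hw1 x.1, ← hw1 x.2]; ring
    rw [add_mul, one_mul, e1, e3]
    conv_rhs => rw [e2]
    rw [← Finset.sum_add_distrib, ← Finset.sum_sub_distrib, W, Finset.mul_sum]
    refine Finset.sum_congr rfl fun x hx => ?_
    have hx' : x.1 + x.2 = n + 2 := mem_antidiagonal.1 hx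
    rw [← hx', pow_add]
    ring
  have hsum : ∀ n, ∑ j ∈ range (n + 1), gb q n j * a ^ j = qp q n * W a w n := by
    intro n
    rw [W, Finset.Nat.sum_antidiagonal_eq_sum_range_succ (fun i l => w i * w l * a ^ i) n,
      Finset.mul_sum]
    refine Finset.sum_congr rfl fun j _ => ?_
    simp only [gb, hw]
    rw [div_eq_mul_inv, mul_inv]
    ring
  rw [hsum]
  induction n using Nat.strong_induction_on with
  | _ n ih =>
    rcases n with _ | _ | n
    · simp [gg, W, qp, hw]
    · have h1 : (1 : K) - q ≠ 0 := by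
        intro h
        exact hq 1 le_rfl (by rw [pow_one]; exact (sub_eq_zero.1 h).symm)
      simp [gg, W, qp, hw, Finset.Nat.antidiagonal_succ] 
      field_simp
    · rw [show n + 1 + 1 = n + 2 from rfl, gg, ← ih (n + 1) (by omega), ← ih n (by omega),
        qp_succ, qp_succ]
      linear_combination (qp q n * (1 - q ^ (n + 1))) * hrec n

theorem Rsum (a q : K) (hq : ∀ m : ℕ, 1 ≤ m → q ^ m ≠ 1) (n : ℕ) :
    ∑ k ∈ range (n + 1), q ^ (k * (k - 1) + (n - k) * (n - k - 1)) * gb (q ^ 2) n k * a ^ k =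
      Rt a q n := by
  have hq2 : ∀ m : ℕ, 1 ≤ m → (q ^ 2) ^ m ≠ 1 := by
    intro m hm
    rw [← pow_mul]
    exact hq _ (by omega)
  set w : ℕ → K := fun i => q ^ (i * (i - 1)) * (qp (q ^ 2) i)⁻¹ with hw
  have hw1 : ∀ i, (1 - (q ^ 2) ^ (i + 1)) * w (i + 1) = (q ^ 2) ^ i * w i := by
    intro i
    have h1 := qp_ne (q ^ 2) hq2 i
    have h2 := qp_ne (q ^ 2) hq2 (i + 1)
    have h4 : q ^ ((i + 1) * (i + 1 - 1)) = (q ^ 2) ^ i * q ^ (i * (i - 1)) := by
      rw [← pow_mul, ← pow_add]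
      congr 1
      rcases i with _ | i
      · rfl
      · simp only [Nat.add_sub_cancel]; ring
    simp only [hw]
    rw [h4]
    rw [qp_succ] at h2 ⊢
    have h3 := right_ne_zero_of_mul h2
    field_simp
  have hrec : ∀ n, (1 - (q ^ 2) ^ (n + 2)) * W a w (n + 2) =
      (1 + a) * (q ^ 2) ^ (n + 1) * W a w (n + 1) + a * (q ^ 2) ^ n * W a w n := by
    intro n
    have e1 : a * (q ^ 2) ^ (n + 1) * W a w (n + 1) = ∑ x ∈ antidiagonal (n + 2),
        (q ^ 2) ^ x.2 * (1 - (q ^ 2) ^ x.1) * (w x.1 * w x.2 * a ^ x.1) := by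
      rw [Finset.Nat.sum_antidiagonal_succ, W, Finset.mul_sum]
      simp only [pow_zero, sub_self, zero_mul, mul_zero, zero_add]
      refine Finset.sum_congr rfl fun x hx => ?_
      have hx' : x.1 + x.2 = n + 1 := mem_antidiagonal.1 hx
      rw [← hx', pow_add]
      linear_combination (-(q ^ 2) ^ x.2 * w x.2 * a ^ (x.1 + 1)) * hw1 x.1
    have e2 : (q ^ 2) ^ (n + 1) * W a w (n + 1) = ∑ x ∈ antidiagonal (n + 2),
        (q ^ 2) ^ x.1 * (1 - (q ^ 2) ^ x.2) * (w x.1 * w x.2 * a ^ x.1) := by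
      rw [Finset.Nat.sum_antidiagonal_succ', W, Finset.mul_sum]
      simp only [pow_zero, sub_self, zero_mul, mul_zero, zero_add]
      refine Finset.sum_congr rfl fun x hx => ?_
      have hx' : x.1 + x.2 = n + 1 := mem_antidiagonal.1 hx
      rw [← hx', pow_add]
      linear_combination (-(q ^ 2) ^ x.1 * w x.1 * a ^ x.1) * hw1 x.2
    have e3 : a * (q ^ 2) ^ n * W a w n = ∑ x ∈ antidiagonal (n + 2),
        (1 - (q ^ 2) ^ x.1) * (1 - (q ^ 2) ^ x.2) * (w x.1 * w x.2 * a ^ x.1) := by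
      rw [Finset.Nat.sum_antidiagonal_succ, Finset.Nat.sum_antidiagonal_succ', W, Finset.mul_sum]
      simp only [pow_zero, sub_self, zero_mul, mul_zero, zero_add]
      refine Finset.sum_congr rfl fun x hx => ?_
      have hx' : x.1 + x.2 = n := mem_antidiagonal.1 hx
      rw [← hx', pow_add]
      have h1 := hw1 x.1
      have h2 := hw1 x.2
      calc a * ((q ^ 2) ^ x.1 * (q ^ 2) ^ x.2) * (w x.1 * w x.2 * a ^ x.1)
          = ((q ^ 2) ^ x.1 * w x.1) * ((q ^ 2) ^ x.2 * w x.2) * a ^ (x.1 + 1) := by ring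
        _ = _ := by rw [← h1, ← h2]; ring
    rw [show (1 + a) * (q ^ 2) ^ (n + 1) * W a w (n + 1) = (q ^ 2) ^ (n + 1) * W a w (n + 1) +
      a * (q ^ 2) ^ (n + 1) * W a w (n + 1) by ring, e1, e2, e3, ← Finset.sum_add_distrib,
      ← Finset.sum_add_distrib, W, Finset.mul_sum]
    refine Finset.sum_congr rfl fun x hx => ?_
    have hx' : x.1 + x.2 = n + 2 := mem_antidiagonal.1 hx
    rw [← hx', pow_add]
    ring
  have hsum : ∀ n, ∑ k ∈ range (n + 1), q ^ (k * (k - 1) + (n - k) * (n - k - 1)) *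
      gb (q ^ 2) n k * a ^ k = qp (q ^ 2) n * W a w n := by
    intro n
    rw [W, Finset.Nat.sum_antidiagonal_eq_sum_range_succ (fun i l => w i * w l * a ^ i) n,
      Finset.mul_sum]
    refine Finset.sum_congr rfl fun j _ => ?_
    simp only [gb, hw]
    rw [div_eq_mul_inv, mul_inv, pow_add]
    ring
  rw [hsum]
  induction n using Nat.strong_induction_on with
  | _ n ih =>
    rcases n with _ | _ | n
    · simp [Rt, W, qp, hw]
    · have h1 : (1 : K) - q ^ 2 ≠ 0 := by
        intro h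
        exact hq 2 (by norm_num) (sub_eq_zero.1 h).symm
      simp [Rt, W, qp, hw, Finset.Nat.antidiagonal_succ]
      field_simp
    · rw [show n + 1 + 1 = n + 2 from rfl, Rt, ← ih (n + 1) (by omega), ← ih n (by omega),
        qp_succ, qp_succ, show q ^ (2 * (n + 1)) = (q ^ 2) ^ (n + 1) by rw [← pow_mul],
        show q ^ (2 * n) = (q ^ 2) ^ n by rw [← pow_mul]]
      linear_combination (qp (q ^ 2) n * (1 - (q ^ 2) ^ (n + 1))) * hrec n

theorem hh_even (a q : K) (k : ℕ) : hh a q (2 * k) = a ^ (2 * k) * q ^ (k * (2 * k - 1)) *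
    qp q (2 * k) := by
  induction k with
  | zero => simp [hh, qp]
  | succ k ih =>
    rw [show 2 * (k + 1) = 2 * k + 1 + 1 by ring, hh, hh, ih, qp_succ, qp_succ,
      show (k + 1) * (2 * k + 1 + 1 - 1) = k * (2 * k - 1) + (4 * k + 1) by
        rw [Nat.add_sub_cancel]
        rcases k with _ | k
        · rfl
        · rw [show 2 * (k + 1) - 1 = 2 * k + 1 by omega]; ring]
    ring

end Pool.Agent.X234.PF
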