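import Pool.Agent.X234.PF.Pf

/-!
# Pfaffians of skew forms on polynomials
-/

set_option autoImplicit false

namespace Pool.Agent.X234.PF

open Finset Equiv Polynomial

/-- numbering of `2 n` indices by pairs: `(k, b)` has number `2 k + b` -/
def ee (n : ℕ) : Fin n × Fin 2 ≃ Fin (2 * n) := finProdFinEquiv.trans (finCongr (mul_comm n 2))

theorem ee_zero (n : ℕ) (k : Fin n) : ee n (k, 0) = ⟨2 * (k : ℕ), by omega⟩ := by
  ext; simp [ee, finProdFinEquiv]

theorem ee_one (n : ℕ) (k : Fin n) : ee n (k, 1) = ⟨2 * (k : ℕ) + 1, by omega⟩ := by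
  ext; simp [ee, finProdFinEquiv]; omega

/-- The Pfaffian of a `2 n × 2 n` matrix (over a `ℚ`-algebra):
`(1 / (2 ^ n n!)) ∑ σ, sgn σ ∏ k < n, A (σ (2 k)) (σ (2 k + 1))`. -/
noncomputable def pf {R : Type*} [CommRing R] [Algebra ℚ R] (n : ℕ)
    (A : Matrix (Fin (2 * n)) (Fin (2 * n)) R) : R :=
  ((2 ^ n * n.factorial : ℚ)⁻¹) • ∑ σ : Perm (Fin (2 * n)), (Perm.sign σ : ℤ) •
    ∏ k : Fin n, A (σ ⟨2 * (k : ℕ), by omega⟩) (σ ⟨2 * (k : ℕ) + 1, by omega⟩)

theorem pf_eq {R : Type*} [CommRing R] [Algebra ℚ R] (n : ℕ)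
    (A : Matrix (Fin (2 * n)) (Fin (2 * n)) R) :
    pf n A = ((2 ^ n * n.factorial : ℚ)⁻¹) • ps (A.submatrix (ee n) (ee n)) := by
  unfold pf ps
  congr 1
  refine (Fintype.sum_equiv (ee n).permCongr _ _ fun σ => ?_).symm
  rw [Perm.sign_permCongr]
  congr 1
  refine Finset.prod_congr rfl fun k _ => ?_
  rw [← ee_zero, ← ee_one]
  simp [Equiv.permCongr_apply, Matrix.submatrix_apply]

theorem pf_map {R S : Type*} [CommRing R] [Algebra ℚ R] [CommRing S] [Algebra ℚ S] (φ : R →+* S)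
    (n : ℕ) (A : Matrix (Fin (2 * n)) (Fin (2 * n)) R) :
    φ (pf n A) = pf n (A.map φ) := by
  unfold pf
  rw [Algebra.smul_def, Algebra.smul_def, map_mul, map_sum]
  congr 1
  · exact congrArg (fun f : ℚ →+* S => f ((2 ^ n * n.factorial : ℚ)⁻¹))
      (Subsingleton.elim (φ.comp (algebraMap ℚ R)) (algebraMap ℚ S))
  · refine Finset.sum_congr rfl fun σ _ => ?_
    rw [map_zsmul, map_prod]
    rfl

/-- coefficients beyond `r` vanish and the coefficient at `r` is `1` -/
def Mon {R : Type*} [CommRing R] (r : ℕ) (p : R[X]) : Prop :=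
  (∀ j, r < j → p.coeff j = 0) ∧ p.coeff r = 1

theorem ps_change {R : Type*} [CommRing R] (n : ℕ) (B : R[X] →ₗ[R] R[X] →ₗ[R] R) (f : ℕ → R[X])
    (hf : ∀ r, Mon r (f r)) :
    ps ((Matrix.of fun i j : Fin (2 * n) => B (X ^ (i : ℕ)) (X ^ (j : ℕ))).submatrix
      (ee n) (ee n)) =
    ps ((Matrix.of fun i j : Fin (2 * n) => B (f i) (f j)).submatrix (ee n) (ee n)) := by
  classical
  set P : Matrix (Fin (2 * n)) (Fin (2 * n)) R := Matrix.of fun i k => (f i).coeff k with hP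
  have hfi : ∀ i : Fin (2 * n), f i = ∑ k : Fin (2 * n), (f i).coeff k • X ^ (k : ℕ) := by
    intro i
    have hdeg : (f i).natDegree < 2 * n := by
      refine lt_of_le_of_lt ?_ i.2
      rw [natDegree_le_iff_coeff_eq_zero]
      intro N hN
      exact (hf i).1 N hN
    conv_lhs => rw [(f i).as_sum_range' (2 * n) hdeg]
    rw [Finset.sum_range]
    refine Finset.sum_congr rfl fun k _ => ?_
    rw [← C_mul_X_pow_eq_monomial, smul_eq_C_mul]
  have hA : (Matrix.of fun i j : Fin (2 * n) => B (f i) (f j)) =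
      P * (Matrix.of fun i j : Fin (2 * n) => B (X ^ (i : ℕ)) (X ^ (j : ℕ))) * P.transpose := by
    ext i j
    rw [Matrix.mul_assoc, Matrix.mul_apply, Matrix.of_apply]
    conv_lhs => rw [hfi i, hfi j]
    rw [LinearMap.map_sum₂]
    refine Finset.sum_congr rfl fun k _ => ?_
    rw [LinearMap.map_smul₂, smul_eq_mul, Matrix.mul_apply, map_sum]
    congr 1
    refine Finset.sum_congr rfl fun l _ => ?_
    rw [map_smul, smul_eq_mul, mul_comm]
    rfl
  have hdet : P.det = 1 := by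
    rw [Matrix.det_of_isLowerTriangular P]
    · exact Finset.prod_eq_one fun i _ => (hf i).2
    · intro i j hij
      exact (hf i).1 j hij
  have hsub : (P * (Matrix.of fun i j : Fin (2 * n) => B (X ^ (i : ℕ)) (X ^ (j : ℕ))) *
      P.transpose).submatrix (ee n) (ee n) =
      (P.submatrix (ee n) (ee n)) *
      ((Matrix.of fun i j : Fin (2 * n) => B (X ^ (i : ℕ)) (X ^ (j : ℕ))).submatrix (ee n) (ee n)) *
      (P.submatrix (ee n) (ee n)).transpose := by
    rw [Matrix.transpose_submatrix, Matrix.submatrix_mul_equiv, Matrix.submatrix_mul_equiv]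
  rw [hA, hsub, ps_congr, Matrix.det_submatrix_equiv_self, hdet, one_mul]

end Pool.Agent.X234.PF
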