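import Mathlib

/-!
# Pfaffian sums over permutations
-/

set_option autoImplicit false

namespace Pool.Agent.X234.PF

open Finset Equiv

variable {R : Type*} [CommRing R] {n : ℕ}

/-- the unnormalised Pfaffian sum, the rows being numbered by pairs -/
def ps (A : Matrix (Fin n × Fin 2) (Fin n × Fin 2) R) : R :=
  ∑ σ : Perm (Fin n × Fin 2), (Perm.sign σ : ℤ) • ∏ k : Fin n, A (σ (k, 0)) (σ (k, 1))

/-- the product of the values of a bilinear form at the pairs, as a multilinear map -/
noncomputable def mm (A : Matrix (Fin n × Fin 2) (Fin n × Fin 2) R) :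
    MultilinearMap R (fun _ : Fin n × Fin 2 => (Fin n × Fin 2 → R)) R where
  toFun v := ∏ k : Fin n, (v (k, 0) ⬝ᵥ A.mulVec (v (k, 1)))
  map_update_add' := by
    intro hdec v x y z
    obtain ⟨k0, b⟩ := x
    have hd : hdec = instDecidableEqProd := Subsingleton.elim _ _
    subst hd
    rw [← Finset.mul_prod_erase univ _ (mem_univ k0), ← Finset.mul_prod_erase univ _ (mem_univ k0),
      ← Finset.mul_prod_erase univ _ (mem_univ k0)]
    have key : ∀ (w : Fin n × Fin 2 → R), ∏ k ∈ univ.erase k0,
        (Function.update v (k0, b) w (k, 0) ⬝ᵥ A.mulVec (Function.update v (k0, b) w (k, 1))) =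
        ∏ k ∈ univ.erase k0, (v (k, 0) ⬝ᵥ A.mulVec (v (k, 1))) := by
      intro w
      refine Finset.prod_congr rfl fun k hk => ?_
      have hk0 : k ≠ k0 := Finset.ne_of_mem_erase hk
      rw [Function.update_of_ne (by intro h; exact hk0 (congrArg Prod.fst h)),
        Function.update_of_ne (by intro h; exact hk0 (congrArg Prod.fst h))]
    rw [key, key, key, ← add_mul]
    congr 1
    fin_cases b
    · simp [Function.update_self, Function.update_of_ne, add_dotProduct]
    · simp [Function.update_self, Function.update_of_ne, Matrix.mulVec_add, dotProduct_add]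
  map_update_smul' := by
    intro hdec v x c y
    obtain ⟨k0, b⟩ := x
    have hd : hdec = instDecidableEqProd := Subsingleton.elim _ _
    subst hd
    rw [← Finset.mul_prod_erase univ _ (mem_univ k0), ← Finset.mul_prod_erase univ _ (mem_univ k0)]
    have key : ∀ (w : Fin n × Fin 2 → R), ∏ k ∈ univ.erase k0,
        (Function.update v (k0, b) w (k, 0) ⬝ᵥ A.mulVec (Function.update v (k0, b) w (k, 1))) =
        ∏ k ∈ univ.erase k0, (v (k, 0) ⬝ᵥ A.mulVec (v (k, 1))) := by
      intro w
      refine Finset.prod_congr rfl fun k hk => ?_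
      have hk0 : k ≠ k0 := Finset.ne_of_mem_erase hk
      rw [Function.update_of_ne (by intro h; exact hk0 (congrArg Prod.fst h)),
        Function.update_of_ne (by intro h; exact hk0 (congrArg Prod.fst h))]
    rw [key, key, smul_eq_mul, ← mul_assoc]
    congr 1
    fin_cases b
    · simp [Function.update_self, Function.update_of_ne, smul_dotProduct]
    · simp [Function.update_self, Function.update_of_ne, Matrix.mulVec_smul, dotProduct_smul]

theorem ps_congr (P A : Matrix (Fin n × Fin 2) (Fin n × Fin 2) R) :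
    ps (P * A * P.transpose) = P.det * ps A := by
  have hF : ∀ v : Fin n × Fin 2 → (Fin n × Fin 2 → R),
      MultilinearMap.alternatization (mm A) v =
      ∑ σ : Perm (Fin n × Fin 2), (Perm.sign σ : ℤ) •
        ∏ k : Fin n, (v (σ (k, 0)) ⬝ᵥ A.mulVec (v (σ (k, 1)))) := by
    intro v
    rw [MultilinearMap.alternatization_apply]
    refine Finset.sum_congr rfl fun σ _ => ?_
    rfl
  have h1 := AlternatingMap.eq_smul_basis_det (Pi.basisFun R (Fin n × Fin 2))
    (MultilinearMap.alternatization (mm A))
  have h2 := congrArg (fun F => F (fun i => P i)) h1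
  simp only [AlternatingMap.smul_apply, smul_eq_mul] at h2
  rw [hF, hF, Pi.basisFun_det_apply] at h2
  have e1 : ps (P * A * P.transpose) = ∑ σ : Perm (Fin n × Fin 2), (Perm.sign σ : ℤ) •
        ∏ k : Fin n, (P (σ (k, 0)) ⬝ᵥ A.mulVec (P (σ (k, 1)))) := by
    refine Finset.sum_congr rfl fun σ _ => ?_
    congr 1
    refine Finset.prod_congr rfl fun k _ => ?_
    rw [Matrix.mul_assoc, Matrix.mul_apply, dotProduct]
    refine Finset.sum_congr rfl fun j _ => ?_
    rw [Matrix.mul_apply, Matrix.mulVec, dotProduct]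
    rfl
  have e2 : ps A = ∑ σ : Perm (Fin n × Fin 2), (Perm.sign σ : ℤ) •
        ∏ k : Fin n, ((Pi.basisFun R (Fin n × Fin 2)) (σ (k, 0)) ⬝ᵥ
          A.mulVec ((Pi.basisFun R (Fin n × Fin 2)) (σ (k, 1)))) := by
    refine Finset.sum_congr rfl fun σ _ => ?_
    congr 1
    refine Finset.prod_congr rfl fun k _ => ?_
    rw [Pi.basisFun_apply, Pi.basisFun_apply]
    simp
  rw [e1, e2, h2]
  rw [mul_comm]
  rfl

/-- the standard symplectic matrix -/
def J (n : ℕ) (R : Type*) [CommRing R] : Matrix (Fin n × Fin 2) (Fin n × Fin 2) R := fun x y =>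
  if x.1 = y.1 then (if x.2 = 0 ∧ y.2 = 1 then 1 else if x.2 = 1 ∧ y.2 = 0 then -1 else 0) else 0

theorem ps_J : ps (J n R) = (2 ^ n * n.factorial : ℕ) := by
  classical
  have h := Fintype.sum_of_injective
    (fun x : Perm (Fin n) × (Fin n → Perm (Fin 2)) =>
      (prodCongrLeft (fun _ : Fin 2 => x.1) * prodCongrRight x.2 : Perm (Fin n × Fin 2)))
    (by
      rintro ⟨τ, ε⟩ ⟨τ', ε'⟩ h
      have h2 : ∀ k b, (τ k, ε k b) = (τ' k, ε' k b) := fun k b =>
        congrArg (fun f : Perm (Fin n × Fin 2) => f (k, b)) h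
      refine Prod.ext (Equiv.ext fun k => congrArg Prod.fst (h2 k 0))
        (funext fun k => Equiv.ext fun b => congrArg Prod.snd (h2 k b)))
    (fun _ => (1 : R))
    (fun σ => (Perm.sign σ : ℤ) • ∏ k : Fin n, J n R (σ (k, 0)) (σ (k, 1)))
    (by
      intro σ hσ
      by_contra hne
      apply hσ
      have hne' : ∀ k : Fin n, J n R (σ (k, 0)) (σ (k, 1)) ≠ 0 := by
        intro k h0
        apply hne
        show (Perm.sign σ : ℤ) • ∏ k : Fin n, J n R (σ (k, 0)) (σ (k, 1)) = 0
        rw [Finset.prod_eq_zero (mem_univ k) h0, smul_zero]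
      have h1 : ∀ k : Fin n, (σ (k, 0)).1 = (σ (k, 1)).1 := by
        intro k
        by_contra h
        exact hne' k (by simp only [J]; rw [if_neg h])
      have h2 : ∀ k : Fin n, (σ (k, 0)).2 ≠ (σ (k, 1)).2 := by
        intro k h
        have := hne' k
        simp only [J, if_pos (h1 k), h] at this
        revert this
        generalize (σ (k, 1)).2 = w
        intro this
        fin_cases w <;> simp at this
      have hτ : Function.Injective (fun k : Fin n => (σ (k, 0)).1) := by
        intro k k' hk
        simp only at hk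
        by_contra hkk
        have a1 : σ (k', 0) ≠ σ (k, 0) := fun h => hkk (congrArg Prod.fst (σ.injective h)).symm
        have a2 : σ (k', 0) ≠ σ (k, 1) := fun h => hkk (congrArg Prod.fst (σ.injective h)).symm
        have b1 : (σ (k', 0)).2 ≠ (σ (k, 0)).2 := fun h => a1 (Prod.ext hk.symm h)
        have b2 : (σ (k', 0)).2 ≠ (σ (k, 1)).2 := fun h => a2 (Prod.ext (hk.symm.trans (h1 k)) h)
        have b3 := h2 k
        revert b1 b2 b3
        generalize (σ (k', 0)).2 = u
        generalize (σ (k, 0)).2 = v
        generalize (σ (k, 1)).2 = w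
        revert u v w
        decide
      have hε : ∀ k : Fin n, Function.Injective (fun b : Fin 2 => (σ (k, b)).2) := by
        intro k b b' hb
        simp only at hb
        by_contra hbb
        have h3 := h2 k
        fin_cases b <;> fin_cases b'
        · exact hbb rfl
        · exact h3 hb
        · exact h3 hb.symm
        · exact hbb rfl
      refine ⟨(Equiv.ofBijective _ (Finite.injective_iff_bijective.1 hτ),
        fun k => Equiv.ofBijective _ (Finite.injective_iff_bijective.1 (hε k))), ?_⟩
      refine Equiv.ext fun x => ?_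
      obtain ⟨k, b⟩ := x
      show ((σ (k, 0)).1, (σ (k, b)).2) = σ (k, b)
      refine Prod.ext ?_ rfl
      fin_cases b
      · rfl
      · exact h1 k)
    (by
      rintro ⟨τ, ε⟩
      show (1 : R) = (Perm.sign (prodCongrLeft (fun _ : Fin 2 => τ) * prodCongrRight ε) : ℤ) •
        ∏ k : Fin n, J n R (τ k, ε k 0) (τ k, ε k 1)
      have hj : ∀ k : Fin n, J n R (τ k, ε k 0) (τ k, ε k 1) = ((Perm.sign (ε k) : ℤ) : R) := by
        intro k
        simp only [J, if_true]
        have : ∀ e : Perm (Fin 2), e = 1 ∨ e = swap 0 1 := by decide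
        rcases this (ε k) with h | h
        · rw [h]; simp
        · rw [h]; simp
      rw [Finset.prod_congr rfl (fun k _ => hj k), Perm.sign_mul, Perm.sign_prodCongrLeft,
        Perm.sign_prodCongrRight]
      simp only [Fin.prod_univ_two, Int.units_mul_self, one_mul]
      rw [← Int.cast_prod, ← Units.coe_prod, zsmul_eq_mul, ← Int.cast_mul, ← Units.val_mul,
        Int.units_mul_self]
      simp)
  rw [ps, ← h]
  simp [Fintype.card_perm, mul_comm]

/-- The Pfaffian sum of a matrix whose entries vanish inside the two classes. -/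
theorem ps_cb (A : Matrix (Fin n × Fin 2) (Fin n × Fin 2) R)
    (h0 : ∀ u v, A (u, 0) (v, 0) = 0) (h1 : ∀ u v, A (u, 1) (v, 1) = 0)
    (hs : ∀ u v, A (v, 1) (u, 0) = - A (u, 0) (v, 1)) :
    ps A = (2 ^ n * n.factorial : ℕ) * (Matrix.of fun u v : Fin n => A (u, 0) (v, 1)).det := by
  classical
  set C : Matrix (Fin n) (Fin n) R := Matrix.of fun u v : Fin n => A (u, 0) (v, 1) with hC
  have hP : A = Matrix.blockDiagonal (fun b : Fin 2 => if b = 0 then C else 1) * J n R *
      (Matrix.blockDiagonal (fun b : Fin 2 => if b = 0 then C else 1)).transpose := by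
    ext ⟨u, b⟩ ⟨v, c⟩
    rw [Matrix.mul_assoc, Matrix.mul_apply, Fintype.sum_prod_type]
    simp only [Fin.sum_univ_two, Matrix.mul_apply, Matrix.transpose_apply,
      Fintype.sum_prod_type, Matrix.blockDiagonal_apply, J]
    fin_cases b <;> fin_cases c
    · simp [h0]
    · simp [hC, Matrix.one_apply]
    · simp [hC, Matrix.one_apply, hs]
    · simp [h1]
  rw [hP, ps_congr, ps_J, Matrix.det_blockDiagonal]
  simp [mul_comm]

end Pool.Agent.X234.PF
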