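import Pool.Agent.X234.PF.AC

/-!
# The two Pfaffians in terms of norms
-/

set_option autoImplicit false

namespace Pool.Agent.X234.PF

open Finset Equiv Polynomial

theorem pf_form {R : Type*} [CommRing R] [Algebra ℚ R] (n : ℕ) (B : R[X] →ₗ[R] R[X] →ₗ[R] R)
    (f : ℕ → R[X]) (hf : ∀ r, Mon r (f r))
    (h0 : ∀ u v, B (f (2 * u)) (f (2 * v)) = 0)
    (h1 : ∀ u v, B (f (2 * u + 1)) (f (2 * v + 1)) = 0)
    (hs : ∀ u v, B (f (2 * v + 1)) (f (2 * u)) = - B (f (2 * u)) (f (2 * v + 1))) :
    pf n (Matrix.of fun i j : Fin (2 * n) => B (X ^ (i : ℕ)) (X ^ (j : ℕ))) =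
      (Matrix.of fun u v : Fin n => B (f (2 * (u : ℕ))) (f (2 * (v : ℕ) + 1))).det := by
  rw [pf_eq, ps_change n B f hf, ps_cb]
  · rw [← smul_mul_assoc]
    have hc : ((2 ^ n * n.factorial : ℚ)⁻¹) • (((2 ^ n * n.factorial : ℕ)) : R) = 1 := by
      have h2 : ((2 ^ n * n.factorial : ℚ)⁻¹) * (((2 ^ n * n.factorial : ℕ)) : ℚ) = 1 := by
        push_cast
        exact inv_mul_cancel₀ (by positivity)
      rw [Algebra.smul_def, ← map_natCast (algebraMap ℚ R), ← map_mul, h2, map_one]
    rw [hc, one_mul]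
    congr 1
    ext u v
    simp [ee_zero, ee_one]
  · intro u v
    simp [ee_zero, h0]
  · intro u v
    simp [ee_one, h1]
  · intro u v
    simp [ee_zero, ee_one, hs]

theorem Mon.X_mul {R : Type*} [CommRing R] {r : ℕ} {p : R[X]} (h : Mon r p) :
    Mon (r + 1) (X * p) := by
  refine ⟨fun j hj => ?_, ?_⟩
  · obtain ⟨i, rfl⟩ : ∃ i, j = i + 1 := ⟨j - 1, by omega⟩
    rw [coeff_X_mul]
    exact h.1 i (by omega)
  · rw [coeff_X_mul]
    exact h.2

theorem Mon.add_low {R : Type*} [CommRing R] {r s : ℕ} {p p' : R[X]} (h : Mon r p) (c : R)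
    (h' : Mon s p') (hs : s < r) : Mon r (p + C c * p') := by
  refine ⟨fun j hj => ?_, ?_⟩
  · rw [coeff_add, coeff_C_mul, h.1 j hj, h'.1 j (by omega), mul_zero, add_zero]
  · rw [coeff_add, coeff_C_mul, h.2, h'.1 r hs, mul_zero, add_zero]

theorem Mon_U {K : Type*} [CommRing K] (a q : K) (r : ℕ) : Mon r (U a q r) := by
  induction r using Nat.strong_induction_on with
  | _ r ih =>
    rcases r with _ | _ | r
    · refine ⟨fun j hj => ?_, ?_⟩
      · rw [U, coeff_one, if_neg (by omega)]
      · rw [U, coeff_one, if_pos rfl]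
    · have h0 := ih 0 (by omega)
      have h := h0.X_mul.add_low (-(1 + a)) h0 (by omega)
      have e : U a q (0 + 1) = X * U a q 0 + C (-(1 + a)) * U a q 0 := by
        simp only [U, C_neg]; ring
      rw [e]; exact h
    · have h0 := ih r (by omega)
      have h1 := ih (r + 1) (by omega)
      have h := (h1.X_mul.add_low (-((1 + a) * q ^ (r + 1))) h1 (by omega)).add_low
        (a * q ^ r * (1 - q ^ (r + 1))) h0 (by omega)
      have e : U a q (r + 1 + 1) = X * U a q (r + 1) +
          C (-((1 + a) * q ^ (r + 1))) * U a q (r + 1) +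
          C (a * q ^ r * (1 - q ^ (r + 1))) * U a q r := by
        rw [show r + 1 + 1 = r + 2 from rfl, U, C_neg]; ring
      rw [e]; exact h

/-- **First Pfaffian.** -/
theorem pf_first {K : Type*} [CommRing K] [Algebra ℚ K] (a q : K) (n : ℕ) :
    pf n (Matrix.of fun i j : Fin (2 * n) =>
      (q ^ (i : ℕ) - q ^ (j : ℕ)) * gg a q ((i : ℕ) + (j : ℕ) - 1)) =
      ∏ k ∈ range n, ((1 - q ^ (2 * k + 1)) * hh a q (2 * k)) := by
  have e : (Matrix.of fun i j : Fin (2 * n) =>
      (q ^ (i : ℕ) - q ^ (j : ℕ)) * gg a q ((i : ℕ) + (j : ℕ) - 1)) =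
      (Matrix.of fun i j : Fin (2 * n) => B1 a q (X ^ (i : ℕ)) (X ^ (j : ℕ))) := by
    ext i j
    simp only [Matrix.of_apply, B1_X]
  rw [e, pf_form n (B1 a q) (U a q) (Mon_U a q)]
  · rw [Matrix.det_of_isLowerTriangular]
    · rw [Finset.prod_range]
      refine Finset.prod_congr rfl fun k _ => ?_
      rw [Matrix.of_apply, B1_U, Nat.add_sub_cancel, orth_self]
      rcases Nat.eq_zero_or_pos (k : ℕ) with h | h
      · simp [h]
      · rw [orth a q _ _ (by omega : 2 * (k : ℕ) + 1 ≠ 2 * (k : ℕ) - 1), mul_zero, sub_zero]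
    · intro u v huv
      have huv' : (u : ℕ) < v := huv
      rw [Matrix.of_apply, B1_U, Nat.add_sub_cancel, orth a q _ _ (by omega),
        orth a q _ _ (by omega), mul_zero, mul_zero, sub_zero]
  · intro u v
    rw [B1_U]
    rcases Nat.eq_zero_or_pos u with h | h <;> rcases Nat.eq_zero_or_pos v with h' | h'
    · simp [h, h']
    · rw [h, orth a q (2 * 0) _ (by omega)]
      simp
    · rw [h', orth a q (2 * 0) _ (by omega)]
      simp
    · rw [orth a q (2 * u) _ (by omega), orth a q (2 * v) _ (by omega)]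
      simp
  · intro u v
    rw [B1_U, Nat.add_sub_cancel, Nat.add_sub_cancel, orth a q _ _ (by omega),
      orth a q _ _ (by omega)]
    simp
  · intro u v
    rw [B1_apply, B1_apply, ← map_neg]
    congr 1
    ring

/-- first off-diagonal of the second form -/
def al {K : Type*} [CommRing K] (a q : K) (r : ℕ) : K := (1 - q ^ (r + 1)) * ((1 + a) * q ^ r * hh a q r)

/-- second off-diagonal of the second form -/
def be {K : Type*} [CommRing K] (a q : K) (r : ℕ) : K := (1 - q ^ (r + 2)) * hh a q (r + 1)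

theorem LX {K : Type*} [CommRing K] (a q : K) (r t : ℕ) : L a q (X * U a q r * U a q t) =
    L a q (U a q (r + 1) * U a q t) + (1 + a) * q ^ r * L a q (U a q r * U a q t) -
      a * q ^ (r - 1) * (1 - q ^ r) * L a q (U a q (r - 1) * U a q t) := by
  rw [XU, ← L_C_mul, ← L_C_mul, ← map_add, ← map_sub]
  congr 1
  ring

theorem B2_far {K : Type*} [CommRing K] (a q : K) (r s : ℕ) (h : s + 3 ≤ r) :
    B2 a q (U a q r) (U a q s) = 0 := by
  rw [B2_U, LX, LX, orth a q (r + 1) _ (by omega), orth a q r _ (by omega),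
    orth a q (r - 1) _ (by omega), orth a q (s + 1) _ (by omega), orth a q s _ (by omega),
    orth a q (s - 1) _ (by omega)]
  simp

theorem B2_two {K : Type*} [CommRing K] (a q : K) (s : ℕ) :
    B2 a q (U a q (s + 2)) (U a q s) = - be a q s := by
  rw [B2_U, LX, LX, orth a q (s + 2 + 1) _ (by omega), orth a q (s + 2) _ (by omega),
    orth a q (s + 2 - 1) _ (by omega), show s + 2 - 1 = s + 1 from rfl, orth_self,
    orth a q s _ (by omega), orth a q (s - 1) _ (by omega), be]
  ring

theorem B2_one {K : Type*} [CommRing K] (a q : K) (s : ℕ) :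
    B2 a q (U a q (s + 1)) (U a q s) = - al a q s := by
  rw [B2_U, LX, LX, show s + 1 - 1 = s from rfl, orth a q (s + 1 + 1) _ (by omega),
    orth a q (s + 1) _ (by omega), orth_self, orth a q (s + 1) _ (by omega), al]
  rcases Nat.eq_zero_or_pos s with h | h
  · subst h; simp
  · rw [orth a q s _ (by omega), orth a q (s - 1) _ (by omega)]
    ring

theorem B2_skew {K : Type*} [CommRing K] (a q : K) (f g : K[X]) :
    B2 a q f g = - B2 a q g f := by
  rw [B2_apply, B2_apply, ← map_neg]
  congr 1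
  ring

theorem B2_self {K : Type*} [CommRing K] (a q : K) (f : K[X]) : B2 a q f f = 0 := by
  rw [B2_apply, sub_self, mul_zero, map_zero]

/-- the polynomials in the answer -/
def Rt {K : Type*} [CommRing K] (a q : K) : ℕ → K
  | 0 => 1
  | 1 => 1 + a
  | (n + 2) => (1 + a) * q ^ (2 * (n + 1)) * Rt a q (n + 1) +
      a * q ^ (2 * n) * (1 - q ^ (2 * (n + 1))) * Rt a q n

variable {F : Type*} [Field F] (a q : F)

/-- the factors -/
def dd (k : ℕ) : F := (1 - q ^ (2 * k + 1)) * hh a q (2 * k) * Rt a q (k + 1) / Rt a q k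

/-- skew-orthogonal polynomials, in pairs -/
noncomputable def eo : ℕ → F[X] × F[X]
  | 0 => (U a q 0, U a q 1)
  | (k + 1) => (U a q (2 * k + 2) + C (al a q (2 * k + 1) / dd a q k) * (eo k).1 +
      C (-be a q (2 * k) / dd a q k) * (eo k).2,
      U a q (2 * k + 3) + C (be a q (2 * k + 1) / dd a q k) * (eo k).1)

theorem Mon_eo (k : ℕ) : Mon (2 * k) (eo a q k).1 ∧ Mon (2 * k + 1) (eo a q k).2 := by
  induction k with
  | zero => exact ⟨Mon_U a q 0, Mon_U a q 1⟩
  | succ k ih =>
    refine ⟨?_, ?_⟩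
    · exact ((Mon_U a q (2 * k + 2)).add_low _ ih.1 (by omega)).add_low _ ih.2 (by omega)
    · exact (Mon_U a q (2 * k + 3)).add_low _ ih.1 (by omega)

theorem P_aux (k : ℕ) : (∀ r, 2 * k + 3 ≤ r → B2 a q (U a q r) (eo a q k).1 = 0) ∧
    (∀ r, 2 * k + 4 ≤ r → B2 a q (U a q r) (eo a q k).2 = 0) ∧
    B2 a q (U a q (2 * k + 2)) (eo a q k).1 = - be a q (2 * k) ∧
    B2 a q (U a q (2 * k + 2)) (eo a q k).2 = - al a q (2 * k + 1) ∧
    B2 a q (U a q (2 * k + 3)) (eo a q k).2 = - be a q (2 * k + 1) := by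
  induction k with
  | zero =>
    refine ⟨fun r hr => B2_far a q r 0 (by omega), fun r hr => B2_far a q r 1 (by omega),
      B2_two a q 0, B2_one a q 1, B2_two a q 1⟩
  | succ k ih =>
    obtain ⟨i1, i2, i3, i4, i5⟩ := ih
    refine ⟨fun r hr => ?_, fun r hr => ?_, ?_, ?_, ?_⟩
    · rw [eo]
      simp only [← smul_eq_C_mul, map_add, map_smul]
      rw [B2_far a q r _ (by omega), i1 r (by omega), i2 r (by omega)]
      simp
    · rw [eo]
      simp only [← smul_eq_C_mul, map_add, map_smul]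
      rw [B2_far a q r _ (by omega), i1 r (by omega)]
      simp
    · rw [eo]
      simp only [← smul_eq_C_mul, map_add, map_smul]
      rw [show 2 * (k + 1) + 2 = (2 * k + 2) + 2 by ring, B2_two, i1 _ (by omega), i2 _ (by omega),
        show 2 * (k + 1) = 2 * k + 2 by ring]
      simp
    · rw [eo]
      simp only [← smul_eq_C_mul, map_add, map_smul]
      rw [show 2 * (k + 1) + 2 = (2 * k + 3) + 1 by ring, B2_one, i1 _ (by omega),
        show 2 * (k + 1) + 1 = 2 * k + 3 by ring]
      simp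
    · rw [eo]
      simp only [← smul_eq_C_mul, map_add, map_smul]
      rw [show 2 * (k + 1) + 3 = (2 * k + 3) + 2 by ring, B2_two, i1 _ (by omega),
        show 2 * (k + 1) + 1 = 2 * k + 3 by ring]
      simp

theorem dd_succ (k : ℕ) (h0 : dd a q k ≠ 0) (h1 : Rt a q (k + 1) ≠ 0) :
    dd a q (k + 1) = al a q (2 * k + 2) - be a q (2 * k) * be a q (2 * k + 1) / dd a q k := by
  have hne : (1 - q ^ (2 * k + 1)) * hh a q (2 * k) * Rt a q (k + 1) ≠ 0 := by
    intro h; apply h0; rw [dd, h, zero_div]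
  have hk : Rt a q k ≠ 0 := by
    intro h; apply h0; rw [dd, h, div_zero]
  have a1 : (1 - q ^ (2 * k + 1)) ≠ 0 := left_ne_zero_of_mul (left_ne_zero_of_mul hne)
  have a2 : hh a q (2 * k) ≠ 0 := right_ne_zero_of_mul (left_ne_zero_of_mul hne)
  have e1 : hh a q (2 * k + 1) = -(a * q ^ (2 * k) * (1 - q ^ (2 * k + 1))) * hh a q (2 * k) := rfl
  have e2 : Rt a q (k + 1 + 1) = (1 + a) * q ^ (2 * (k + 1)) * Rt a q (k + 1) +
      a * q ^ (2 * k) * (1 - q ^ (2 * (k + 1))) * Rt a q k := rfl
  simp only [dd, al, be]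
  rw [e2, show 2 * (k + 1) = 2 * k + 2 by ring, show 2 * k + 1 + 1 = 2 * k + 2 by ring, e1]
  generalize hh a q (2 * k + 2) = H2
  generalize hh a q (2 * k) = H0 at *
  generalize Rt a q (k + 1) = R1 at *
  generalize Rt a q k = R0 at *
  field_simp
  ring

theorem Q_aux (hd : ∀ k, dd a q k ≠ 0) (hR : ∀ k, Rt a q k ≠ 0) (k : ℕ) :
    (∀ j, j < k → B2 a q (eo a q k).1 (eo a q j).1 = 0 ∧ B2 a q (eo a q k).1 (eo a q j).2 = 0 ∧
      B2 a q (eo a q k).2 (eo a q j).1 = 0 ∧ B2 a q (eo a q k).2 (eo a q j).2 = 0) ∧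
    B2 a q (eo a q k).1 (eo a q k).2 = dd a q k := by
  induction k with
  | zero =>
    refine ⟨fun j hj => absurd hj (by omega), ?_⟩
    rw [eo, B2_skew, B2_one, al, dd]
    simp [Rt, hh]
  | succ k ih =>
    obtain ⟨i1, i2⟩ := ih
    obtain ⟨p1, p2, p3, p4, p5⟩ := P_aux a q k
    have i2' : B2 a q (eo a q k).2 (eo a q k).1 = - dd a q k := by rw [B2_skew, i2]
    have hk := hd k
    have c1 : B2 a q (eo a q (k + 1)).1 (eo a q k).1 = 0 := by
      rw [eo]
      simp only [← smul_eq_C_mul, map_add, map_smul, LinearMap.add_apply, LinearMap.smul_apply,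
        smul_eq_mul]
      rw [p3, i2', B2_self]
      field_simp
      ring
    have c2 : B2 a q (eo a q (k + 1)).1 (eo a q k).2 = 0 := by
      rw [eo]
      simp only [← smul_eq_C_mul, map_add, map_smul, LinearMap.add_apply, LinearMap.smul_apply,
        smul_eq_mul]
      rw [p4, i2, B2_self]
      field_simp
      ring
    have c3 : B2 a q (eo a q (k + 1)).2 (eo a q k).1 = 0 := by
      rw [eo]
      simp only [← smul_eq_C_mul, map_add, map_smul, LinearMap.add_apply, LinearMap.smul_apply,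
        smul_eq_mul]
      rw [p1 _ (by omega), B2_self]
      ring
    have c4 : B2 a q (eo a q (k + 1)).2 (eo a q k).2 = 0 := by
      rw [eo]
      simp only [← smul_eq_C_mul, map_add, map_smul, LinearMap.add_apply, LinearMap.smul_apply,
        smul_eq_mul]
      rw [p5, i2]
      field_simp
      ring
    refine ⟨fun j hj => ?_, ?_⟩
    · rcases Nat.lt_succ_iff_lt_or_eq.1 hj with hj' | rfl
      · obtain ⟨s1, s2, s3, s4, s5⟩ := P_aux a q j
        obtain ⟨t1, t2, t3, t4⟩ := i1 j hj'
        refine ⟨?_, ?_, ?_, ?_⟩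
        · rw [eo]
          simp only [← smul_eq_C_mul, map_add, map_smul, LinearMap.add_apply,
            LinearMap.smul_apply, smul_eq_mul]
          rw [s1 _ (by omega), t1, t3]
          ring
        · rw [eo]
          simp only [← smul_eq_C_mul, map_add, map_smul, LinearMap.add_apply,
            LinearMap.smul_apply, smul_eq_mul]
          rw [s2 _ (by omega), t2, t4]
          ring
        · rw [eo]
          simp only [← smul_eq_C_mul, map_add, map_smul, LinearMap.add_apply,
            LinearMap.smul_apply, smul_eq_mul]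
          rw [s1 _ (by omega), t1]
          ring
        · rw [eo]
          simp only [← smul_eq_C_mul, map_add, map_smul, LinearMap.add_apply,
            LinearMap.smul_apply, smul_eq_mul]
          rw [s2 _ (by omega), t2]
          ring
      · exact ⟨c1, c2, c3, c4⟩
    · have e : (eo a q (k + 1)).2 = U a q (2 * k + 3) +
          C (be a q (2 * k + 1) / dd a q k) * (eo a q k).1 := rfl
      rw [e, ← smul_eq_C_mul, map_add, map_smul, c1, smul_zero, add_zero, B2_skew,
        show (eo a q (k + 1)).1 = U a q (2 * k + 2) + C (al a q (2 * k + 1) / dd a q k) *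
          (eo a q k).1 + C (-be a q (2 * k) / dd a q k) * (eo a q k).2 from rfl]
      simp only [← smul_eq_C_mul, map_add, map_smul, smul_eq_mul]
      rw [show 2 * k + 3 = (2 * k + 2) + 1 by ring, B2_one, show (2 * k + 2) + 1 = 2 * k + 3 by ring,
        p1 _ le_rfl, p5, dd_succ a q k hk (hR _)]
      field_simp
      ring

/-- **Second Pfaffian**, generic case. -/
theorem pf_second_gen [CharZero F] (hd : ∀ k, dd a q k ≠ 0) (hR : ∀ k, Rt a q k ≠ 0) (n : ℕ) :
    pf n (Matrix.of fun i j : Fin (2 * n) =>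
      (q ^ (i : ℕ) - q ^ (j : ℕ)) * gg a q ((i : ℕ) + (j : ℕ))) =
      (∏ k ∈ range n, ((1 - q ^ (2 * k + 1)) * hh a q (2 * k))) * Rt a q n := by
  have e : (Matrix.of fun i j : Fin (2 * n) =>
      (q ^ (i : ℕ) - q ^ (j : ℕ)) * gg a q ((i : ℕ) + (j : ℕ))) =
      (Matrix.of fun i j : Fin (2 * n) => B2 a q (X ^ (i : ℕ)) (X ^ (j : ℕ))) := by
    ext i j
    simp only [Matrix.of_apply, B2_X]
  set f : ℕ → F[X] := fun r => if r % 2 = 0 then (eo a q (r / 2)).1 else (eo a q (r / 2)).2 with hf
  have f0 : ∀ k, f (2 * k) = (eo a q k).1 := by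
    intro k
    simp only [hf]
    rw [if_pos (by omega), show 2 * k / 2 = k by omega]
  have f1 : ∀ k, f (2 * k + 1) = (eo a q k).2 := by
    intro k
    simp only [hf]
    rw [if_neg (by omega), show (2 * k + 1) / 2 = k by omega]
  have hQ := Q_aux a q hd hR
  rw [e, pf_form n (B2 a q) f]
  · have hdiag : (Matrix.of fun u v : Fin n => B2 a q (f (2 * (u : ℕ))) (f (2 * (v : ℕ) + 1))) =
        Matrix.diagonal (fun u : Fin n => dd a q u) := by
      ext u v
      rw [Matrix.of_apply, f0, f1, Matrix.diagonal_apply]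
      split_ifs with h
      · subst h; exact (hQ _).2
      · rcases lt_or_gt_of_ne (fun h' => h (Fin.ext h') : (u : ℕ) ≠ v) with h' | h'
        · rw [B2_skew, ((hQ v).1 u h').2.2.1, neg_zero]
        · exact ((hQ u).1 v h').2.1
    rw [hdiag, Matrix.det_diagonal, ← Finset.prod_range (fun u => dd a q u)]
    clear e f0 f1 hf hdiag
    induction n with
    | zero => simp [Rt]
    | succ n ih =>
      rw [Finset.prod_range_succ, Finset.prod_range_succ, ih, dd]
      have := hR n
      field_simp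
  · intro r
    rcases Nat.even_or_odd' r with ⟨k, rfl | rfl⟩
    · rw [f0]; exact (Mon_eo a q k).1
    · rw [f1]; exact (Mon_eo a q k).2
  · intro u v
    rw [f0, f0]
    rcases lt_trichotomy u v with h | h | h
    · rw [B2_skew, ((hQ v).1 u h).1, neg_zero]
    · subst h; exact B2_self a q _
    · exact ((hQ u).1 v h).1
  · intro u v
    rw [f1, f1]
    rcases lt_trichotomy u v with h | h | h
    · rw [B2_skew, ((hQ v).1 u h).2.2.2, neg_zero]
    · subst h; exact B2_self a q _
    · exact ((hQ u).1 v h).2.2.2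
  · intro u v
    exact B2_skew a q _ _

end Pool.Agent.X234.PF
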