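import Pool.Agent.X234.PF.ChPf

/-!
# Moment sequences
-/

set_option autoImplicit false

namespace Pool.Agent.X234.PF.Ch

open Finset Equiv Polynomial

variable {R : Type*} [CommRing R] [Algebra ℚ R]

theorem mu_arc_even (a : R) (k : ℕ) : mu 2 a (2 * k) = a ^ k * (Nat.centralBinom k : R) := by
  induction k with
  | zero => simp [mu]
  | succ k ih =>
    have h : (4 * ((2 * k : ℕ) + 1) / ((2 * k : ℕ) + (2 : ℕ)) : ℚ) * (Nat.centralBinom k : ℚ) =
        (Nat.centralBinom (k + 1) : ℚ) := by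
      have := Nat.succ_mul_centralBinom_succ k
      have h2 : ((k : ℚ) + 1) * (Nat.centralBinom (k + 1) : ℚ) =
          2 * (2 * k + 1) * (Nat.centralBinom k : ℚ) := by exact_mod_cast this
      have h3 : ((k : ℚ) + 1) ≠ 0 := by positivity
      rw [div_mul_eq_mul_div, div_eq_iff (by positivity)]
      push_cast
      linear_combination (-2) * h2
    rw [show 2 * (k + 1) = 2 * k + 2 by ring, mu, ih, Algebra.smul_def,
      ← map_natCast (algebraMap ℚ R) (Nat.centralBinom (k + 1)), ← h, map_mul, map_natCast]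
    ring

theorem mu_semi_even (a : R) (k : ℕ) : mu 4 a (2 * k) = a ^ k * (catalan k : R) := by
  induction k with
  | zero => simp [mu]
  | succ k ih =>
    have h : (4 * ((2 * k : ℕ) + 1) / ((2 * k : ℕ) + (4 : ℕ)) : ℚ) * (catalan k : ℚ) =
        (catalan (k + 1) : ℚ) := by
      have h1 := Nat.succ_mul_centralBinom_succ k
      rw [← succ_mul_catalan_eq_centralBinom, ← succ_mul_catalan_eq_centralBinom] at h1
      have h2 : ((k : ℚ) + 1) * (((k : ℚ) + 1 + 1) * (catalan (k + 1) : ℚ)) =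
          2 * (2 * k + 1) * (((k : ℚ) + 1) * (catalan k : ℚ)) := by exact_mod_cast h1
      have h3 : ((k : ℚ) + 1) ≠ 0 := by positivity
      have h4 : ((k : ℚ) + 1 + 1) * (catalan (k + 1) : ℚ) = 2 * (2 * k + 1) * (catalan k : ℚ) := by
        apply mul_left_cancel₀ h3
        linear_combination h2
      rw [div_mul_eq_mul_div, div_eq_iff (by positivity)]
      push_cast
      linear_combination (-2) * h4
    rw [show 2 * (k + 1) = 2 * k + 2 by ring, mu, ih, Algebra.smul_def,
      ← map_natCast (algebraMap ℚ R) (catalan (k + 1)), ← h, map_mul, map_natCast]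
    ring

theorem coeff_sq (a : R) (n i : ℕ) : ((X ^ 2 + C a) ^ n : R[X]).coeff i =
    if 2 ∣ i then a ^ (n - i / 2) * (n.choose (i / 2) : R) else 0 := by
  have e : ((X ^ 2 + C a) ^ n : R[X]) = expand R 2 ((X + C a) ^ n) := by
    rw [map_pow, map_add, expand_X, expand_C]
  rw [e, coeff_expand (by norm_num), coeff_X_add_C_pow]

theorem arc_coeff (a : R) (i : ℕ) : ((X ^ 2 + C a) ^ i : R[X]).coeff i = mu 2 a i := by
  rw [coeff_sq]
  rcases Nat.even_or_odd' i with ⟨k, rfl | rfl⟩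
  · rw [if_pos ⟨k, rfl⟩, mu_arc_even, show 2 * k / 2 = k by omega, show 2 * k - k = k by omega,
      Nat.centralBinom]
  · rw [if_neg (by omega), mu_odd]

theorem semi_coeff (a : R) (i : ℕ) : ((X ^ 2 + C a) ^ (i + 1) : R[X]).coeff i =
    ((i : R) + 1) * (a * mu 4 a i) := by
  rw [coeff_sq]
  rcases Nat.even_or_odd' i with ⟨k, rfl | rfl⟩
  · rw [if_pos ⟨k, rfl⟩, mu_semi_even, show 2 * k / 2 = k by omega,
      show 2 * k + 1 - k = k + 1 by omega]
    have h1 : (k + 1) * (2 * k + 1).choose k = (k + 1) * ((2 * k + 1) * catalan k) := by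
      have h2 := Nat.add_one_mul_choose_eq (2 * k) k
      have h3 : (2 * k + 1).choose (k + 1) = (2 * k + 1).choose k := by
        rw [← Nat.choose_symm_of_eq_add (by ring : 2 * k + 1 = (k + 1) + k)]
      have h4 := succ_mul_catalan_eq_centralBinom k
      rw [Nat.centralBinom] at h4
      rw [h3, ← h4] at h2
      linarith
    have h5 := Nat.eq_of_mul_eq_mul_left (by omega) h1
    rw [h5]
    push_cast
    ring
  · rw [if_neg (by omega), mu_odd]
    ring

theorem nu (l : ℕ) (a c : R) (m : ℕ) : Lm l a ((X + C c) ^ m) =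
    ∑ i ∈ range (m + 1), mu l a i * (c ^ (m - i) * (m.choose i : R)) := by
  rw [add_pow, map_sum]
  refine Finset.sum_congr rfl fun i _ => ?_
  rw [← C_pow, ← C_eq_natCast, mul_assoc, ← C_mul, mul_comm, C_mul_X_pow_eq_monomial, Lm_monomial]

theorem T0 (a c : R) (m : ℕ) : ((X ^ 2 + C a + C c * X) ^ m : R[X]).coeff m =
    Lm 2 a ((X + C c) ^ m) := by
  rw [nu, add_pow, finsetSum_coeff]
  refine Finset.sum_congr rfl fun i hi => ?_
  have hi' : i ≤ m := by
    have := Finset.mem_range.1 hi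
    omega
  rw [mul_pow, ← C_pow, ← C_eq_natCast,
    show (X ^ 2 + C a) ^ i * (C (c ^ (m - i)) * X ^ (m - i)) * C (m.choose i : R) =
      C (c ^ (m - i) * (m.choose i : R)) * ((X ^ 2 + C a) ^ i * X ^ (m - i)) by
        rw [C_mul]; ring, coeff_C_mul]
  have h := coeff_mul_X_pow ((X ^ 2 + C a) ^ i : R[X]) (m - i) i
  rw [show i + (m - i) = m by omega] at h
  rw [h, arc_coeff]
  ring

theorem T1 (a c : R) (m : ℕ) : ((X ^ 2 + C a + C c * X) ^ (m + 1) : R[X]).coeff m =
    ((m : R) + 1) * (a * Lm 4 a ((X + C c) ^ m)) := by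
  rw [nu, add_pow, finsetSum_coeff, Finset.sum_range_succ', Finset.mul_sum, Finset.mul_sum]
  have hz : ((X ^ 2 + C a) ^ 0 * (C c * X) ^ (m + 1 - 0) * (((m + 1).choose 0 : ℕ) : R[X])).coeff m
      = 0 := by
    rw [pow_zero, one_mul, Nat.sub_zero, mul_pow, ← C_pow, Nat.choose_zero_right, Nat.cast_one,
      mul_one, coeff_C_mul, coeff_X_pow, if_neg (by omega), mul_zero]
  rw [hz, add_zero]
  refine Finset.sum_congr rfl fun i hi => ?_
  have hi' : i ≤ m := by
    have := Finset.mem_range.1 hi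
    omega
  rw [mul_pow, ← C_pow, ← C_eq_natCast, show m + 1 - (i + 1) = m - i by omega,
    show (X ^ 2 + C a) ^ (i + 1) * (C (c ^ (m - i)) * X ^ (m - i)) * C ((m + 1).choose (i + 1) : R) =
      C (c ^ (m - i) * ((m + 1).choose (i + 1) : R)) * ((X ^ 2 + C a) ^ (i + 1) * X ^ (m - i)) by
        rw [C_mul]; ring, coeff_C_mul]
  have h := coeff_mul_X_pow ((X ^ 2 + C a) ^ (i + 1) : R[X]) (m - i) i
  rw [show i + (m - i) = m by omega] at h
  rw [h, semi_coeff]
  have h2 : ((m : R) + 1) * (m.choose i : R) = ((m + 1).choose (i + 1) : R) * ((i : R) + 1) := by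
    exact_mod_cast congrArg (Nat.cast : ℕ → R) (Nat.add_one_mul_choose_eq m i)
  linear_combination (-(c ^ (m - i) * (a * mu 4 a i))) * h2

/-- Motzkin numbers `∑ k ≤ n, binom n (2 k) * C_k` -/
def motzkin (n : ℕ) : ℕ := ∑ k ∈ range (n + 1), n.choose (2 * k) * catalan k

/-- central Delannoy numbers `∑ k ≤ n, binom n k * binom (n + k) k` -/
def delannoy (n : ℕ) : ℕ := ∑ k ∈ range (n + 1), n.choose k * (n + k).choose k

/-- Schröder numbers `∑ k ≤ n, binom (n + k) (2 k) * C_k` -/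
def schroeder (n : ℕ) : ℕ := ∑ k ∈ range (n + 1), (n + k).choose (2 * k) * catalan k

/-- Narayana polynomials: `N_0 = 1` and `N_n = ∑ k ≤ n, (1 / n) binom n k binom n (k - 1) a ^ k`
for `n ≥ 1`, with `binom n (-1) = 0` -/
noncomputable def narayana (n : ℕ) : ℚ[X] :=
  if n = 0 then 1 else ∑ k ∈ range (n + 1),
    C ((1 / n : ℚ) * n.choose k * (if k = 0 then 0 else (n.choose (k - 1) : ℚ))) * X ^ k

theorem sum_two {M : Type*} [AddCommMonoid M] (f : ℕ → M) (N : ℕ) :
    ∑ i ∈ range (2 * N), f i = ∑ k ∈ range N, (f (2 * k) + f (2 * k + 1)) := by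
  induction N with
  | zero => simp
  | succ N ih =>
    rw [show 2 * (N + 1) = 2 * N + 1 + 1 by ring, Finset.sum_range_succ, Finset.sum_range_succ, ih,
      Finset.sum_range_succ, add_assoc]

theorem motzkin_eq (m : ℕ) : Lm 4 (1 : ℚ) ((X + C 1) ^ m) = (motzkin m : ℚ) := by
  rw [nu]
  have h1 : ∑ i ∈ range (m + 1), mu 4 (1 : ℚ) i * (1 ^ (m - i) * (m.choose i : ℚ)) =
      ∑ i ∈ range (2 * (m + 1)), mu 4 (1 : ℚ) i * (m.choose i : ℚ) := by
    rw [← Finset.sum_subset (Finset.range_subset_range.2 (by omega : m + 1 ≤ 2 * (m + 1)))]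
    · refine Finset.sum_congr rfl fun i _ => ?_
      rw [one_pow, one_mul]
    · intro i _ hi
      rw [Nat.choose_eq_zero_of_lt (by
        rw [Finset.mem_range] at hi; omega), Nat.cast_zero, mul_zero]
  rw [h1, sum_two, motzkin]
  push_cast
  refine Finset.sum_congr rfl fun k _ => ?_
  rw [mu_odd, mu_semi_even]
  ring

theorem delannoy_eq (m : ℕ) : Lm 2 (2 : ℚ) ((X + C 3) ^ m) = (delannoy m : ℚ) := by
  rw [← T0]
  have e : (X ^ 2 + C 2 + C 3 * X : ℚ[X]) = (X + 1) * ((X + 1) + 1) := by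
    simp only [C_ofNat]; ring
  rw [e, mul_pow, add_pow (X + 1) 1 m, Finset.mul_sum, finsetSum_coeff, delannoy]
  push_cast
  refine Finset.sum_congr rfl fun k _ => ?_
  rw [one_pow, mul_one, ← mul_assoc, ← pow_add, ← C_eq_natCast, mul_comm, coeff_C_mul,
    coeff_X_add_one_pow, Nat.choose_symm_add]

theorem schroeder_eq (m : ℕ) : (schroeder (m + 1) : ℚ) = 2 * Lm 4 (2 : ℚ) ((X + C 3) ^ m) := by
  have h := T1 (2 : ℚ) 3 m
  have e : (X ^ 2 + C 2 + C 3 * X : ℚ[X]) = (X + 1) * ((X + 1) + 1) := by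
    simp only [C_ofNat]; ring
  have hs : ((X ^ 2 + C 2 + C 3 * X) ^ (m + 1) : ℚ[X]).coeff m =
      ((m : ℚ) + 1) * (schroeder (m + 1) : ℚ) := by
    rw [e, mul_pow, add_pow (X + 1) 1 (m + 1), Finset.mul_sum, finsetSum_coeff, schroeder]
    push_cast
    rw [Finset.mul_sum]
    refine Finset.sum_congr rfl fun k hk => ?_
    have hk' : k ≤ m + 1 := by
      have := Finset.mem_range.1 hk
      omega
    rw [one_pow, mul_one, ← mul_assoc, ← pow_add, ← C_eq_natCast, mul_comm, coeff_C_mul,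
      coeff_X_add_one_pow]
    have hn : (k + 1) * ((m + 1).choose k * (m + 1 + k).choose m) =
        (k + 1) * ((m + 1) * ((m + 1 + k).choose (2 * k) * catalan k)) := by
      have h1 := Nat.choose_mul (n := m + 1 + k) (k := 2 * k) (s := k) (by omega)
      have h2 := succ_mul_catalan_eq_centralBinom k
      have h3 := Nat.choose_succ_right_eq (m + 1 + k) k
      have h4 : (m + 1 + k).choose m = (m + 1 + k).choose (k + 1) :=
        Nat.choose_symm_of_eq_add (by ring)
      rw [Nat.centralBinom] at h2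
      rw [show m + 1 + k - k = m + 1 by omega] at h3 h1
      rw [show 2 * k - k = k by omega] at h1
      rw [h4]
      calc (k + 1) * ((m + 1).choose k * (m + 1 + k).choose (k + 1))
          = (m + 1).choose k * ((m + 1 + k).choose (k + 1) * (k + 1)) := by ring
        _ = ((m + 1 + k).choose k * (m + 1).choose k) * (m + 1) := by rw [h3]; ring
        _ = _ := by rw [← h1, ← h2]; ring
    have hn2 := Nat.eq_of_mul_eq_mul_left (by omega) hn
    have hn3 := congrArg (Nat.cast : ℕ → ℚ) hn2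
    push_cast at hn3
    push_cast
    linear_combination hn3
  rw [hs] at h
  have hm : ((m : ℚ) + 1) ≠ 0 := by positivity
  exact mul_left_cancel₀ hm h

theorem narayana_eq (m : ℕ) : narayana (m + 1) =
    X * Lm 4 (X : ℚ[X]) ((X + C (1 + X)) ^ m) := by
  have h := T1 (X : ℚ[X]) (1 + X) m
  have e : (X ^ 2 + C X + C (1 + X) * X : ℚ[X][X]) = (X + 1) * (X + C X) := by
    rw [C_add, C_1]; ring
  have hs : ((X ^ 2 + C X + C (1 + X) * X) ^ (m + 1) : ℚ[X][X]).coeff m =
      ((m : ℚ[X]) + 1) * narayana (m + 1) := by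
    rw [e, mul_pow, coeff_mul, Finset.Nat.sum_antidiagonal_eq_sum_range_succ (fun i j =>
      ((X + 1) ^ (m + 1) : ℚ[X][X]).coeff i * ((X + C X) ^ (m + 1) : ℚ[X][X]).coeff j) m,
      narayana, if_neg (by omega), Finset.sum_range_succ' _ (m + 1), mul_add,
      Finset.mul_sum]
    have hz : ((m : ℚ[X]) + 1) * (C ((1 / (m + 1 : ℕ) : ℚ) * (m + 1).choose 0 *
        (if 0 = 0 then 0 else ((m + 1).choose (0 - 1) : ℚ))) * X ^ 0) = 0 := by
      simp
    rw [hz, add_zero]
    refine Finset.sum_congr rfl fun k hk => ?_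
    have hk' : k ≤ m := by
      have := Finset.mem_range.1 hk
      omega
    rw [coeff_X_add_one_pow, coeff_X_add_C_pow, show m + 1 - (m - k) = k + 1 by omega,
      Nat.choose_symm_of_eq_add (show m + 1 = (m - k) + (k + 1) by omega),
      if_neg (by omega), Nat.add_sub_cancel]
    have hc : ((m : ℚ[X]) + 1) * C ((1 / (m + 1 : ℕ) : ℚ) * (m + 1).choose (k + 1) *
        ((m + 1).choose k : ℚ)) = ((m + 1).choose (k + 1) : ℚ[X]) * ((m + 1).choose k : ℚ[X]) := by
      have h1 : ((m : ℚ[X]) + 1) = C ((m : ℚ) + 1) := by simp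
      rw [h1, ← C_eq_natCast, ← C_eq_natCast, ← C_mul, ← C_mul]
      congr 1
      have : ((m : ℚ) + 1) ≠ 0 := by positivity
      push_cast
      field_simp
    linear_combination (-(X : ℚ[X]) ^ (k + 1)) * hc
  rw [hs] at h
  have hm : ((m : ℚ[X]) + 1) ≠ 0 := by
    exact_mod_cast Nat.succ_ne_zero m
  exact mul_left_cancel₀ hm h

end Pool.Agent.X234.PF.Ch
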